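import Pool.Agent.H36.DS.Surf
import Pool.Agent.H12.CV.DK

/-!
Project MP_8a27c0_BR (helper91): the bridge between the definitions for general closed surfaces
(`Pool/Agent/H36/DS/Surf.lean`, namespace `DS.Surf`) and the covering part (`Pool/Agent/H12/CV`, namespace `CV`).
-/

namespace BR

open Metric Set Filter Topology Function CV
open scoped Manifold ContDiff

/-- the Euclidean plane (model space) -/
abbrev E2 := DS.Surf.E2

/-- `p` is `C¹` with invertible differential on `X` -/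
structure Smo {S : Type} [MetricSpace S] [ChartedSpace E2 S] (X : Set ℂ) (p : ℂ → S) : Prop where
  sm : ContMDiffOn 𝓘(ℝ, ℂ) (𝓡 2) 1 p X
  bij : ∀ z ∈ X, Bijective (mfderiv 𝓘(ℝ, ℂ) (𝓡 2) p z)

/-- a `C¹` diffeomorphism `f` (inverse `fi`) of the surface preserving the area form `om` -/
structure SSys {S : Type} [MetricSpace S] [ChartedSpace E2 S] (f fi : S → S)
    (om : ∀ x : S, TangentSpace (𝓡 2) x →ₗ[ℝ] TangentSpace (𝓡 2) x →ₗ[ℝ] ℝ) : Prop where
  cf : ContMDiff (𝓡 2) (𝓡 2) 1 f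
  cfi : ContMDiff (𝓡 2) (𝓡 2) 1 fi
  ffi : ∀ x, f (fi x) = x
  fif : ∀ x, fi (f x) = x
  area : DS.Surf.IsAreaForm om
  pres : DS.Surf.PreservesArea om f

/-- `H` is a continuous lift of `h` -/
structure CLift {S : Type} [MetricSpace S] (X : Set ℂ) (p : ℂ → S) (h : S → S) (H : ℂ → ℂ) : Prop where
  cont : ContinuousOn H X
  maps : MapsTo H X X
  lift : ∀ x ∈ X, p (H x) = h (p x)

/-- the density of the area form in the coordinate of `p` -/
noncomputable def rho {S : Type} [MetricSpace S] [ChartedSpace E2 S]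
    (om : ∀ x : S, TangentSpace (𝓡 2) x →ₗ[ℝ] TangentSpace (𝓡 2) x →ₗ[ℝ] ℝ) (p : ℂ → S) (x : ℂ) : ℝ :=
  om (p x) (mfderiv 𝓘(ℝ, ℂ) (𝓡 2) p x (1:ℂ)) (mfderiv 𝓘(ℝ, ℂ) (𝓡 2) p x Complex.I)

/-- the trace of the derivative at `P` of the `n`-th iterate -/
noncomputable def str {S : Type} [MetricSpace S] [ChartedSpace E2 S] (f : S → S) (n : ℕ) (P : S) : ℝ :=
  LinearMap.trace ℝ E2 (DS.Surf.iterDeriv f n P : E2 →ₗ[ℝ] E2)

/-- the union of the stable sets -/
def stU {S : Type} [MetricSpace S] (f : S → S) : Set S :=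
  ⋃ P ∈ periodicPts f, DS.Surf.stableSet f P

end BR
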