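import Pool.Agent.H91.BR.Base

/-!
STB (stable sets).  `stab_iter`: `⊆`: `dist (f^[n] x) (f^[n] P) → 0` along multiples of `q` implies convergence: for `n = q k + j`, `0 ≤ j < q`, `dist (f^[j] (f^[qk] x)) (f^[j] (f^[qk] P))` is small when
`dist (f^[qk] x) (f^[qk] P)` is small, uniformly in `j < q` (`f^[j]` is uniformly continuous on the compact space: `CompactSpace.uniformContinuous_of_continuous`).
`⊇`: subsequence (`(f^[q])^[n] = f^[q * n]`, `iterate_mul`; `tendsto_id.const_mul_atTop'` / `StrictMono.tendsto_atTop`).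
`stU_image`: as `stable_image` in `Pool/Agent/H36/DS/FIN.lean` (copy).  `per_iter`: `periodicPts (f^[q]) = periodicPts f`.
-/

namespace BR

open Metric Set Filter Topology Function CV
open scoped Manifold ContDiff

variable {S : Type} [MetricSpace S] {f fi : S → S}

omit [MetricSpace S] in
private theorem STB_split (f : S → S) (q n : ℕ) (x : S) :
    f^[n] x = f^[n % q] ((f^[q])^[n / q] x) := by
  rw [← Function.iterate_mul, ← Function.iterate_add_apply, Nat.mod_add_div]

private theorem STB_uc {f : S → S} [CompactSpace S] (hf : Continuous f) {ε : ℝ} (hε : 0 < ε)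
    (q : ℕ) : ∃ δ > 0, ∀ j < q, ∀ a b : S, dist a b < δ → dist (f^[j] a) (f^[j] b) < ε := by
  induction q with
  | zero => exact ⟨1, one_pos, fun j hj => absurd hj (Nat.not_lt_zero j)⟩
  | succ q ih =>
    obtain ⟨δ, hδ, h⟩ := ih
    have hu : UniformContinuous (f^[q]) :=
      CompactSpace.uniformContinuous_of_continuous (hf.iterate q)
    obtain ⟨δ', hδ', h'⟩ := Metric.uniformContinuous_iff.1 hu ε hε
    refine ⟨min δ δ', lt_min hδ hδ', fun j hj a b hab => ?_⟩
    rcases Nat.lt_succ_iff_lt_or_eq.mp hj with h1 | h1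
    · exact h j h1 a b (lt_of_lt_of_le hab (min_le_left _ _))
    · rw [h1]
      exact h' (lt_of_lt_of_le hab (min_le_right _ _))

theorem stab_iter [CompactSpace S] (hf : Continuous f) {q : ℕ} (hq : 0 < q) (P : S) :
    DS.Surf.stableSet (f^[q]) P = DS.Surf.stableSet f P := by
  apply Subset.antisymm
  · intro x hx
    have h1 : Tendsto (fun n : ℕ => dist ((f^[q])^[n] x) ((f^[q])^[n] P)) atTop (𝓝 0) := hx
    show Tendsto (fun n : ℕ => dist (f^[n] x) (f^[n] P)) atTop (𝓝 0)
    rw [Metric.tendsto_atTop] at h1 ⊢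
    intro ε hε
    obtain ⟨δ, hδ, hd⟩ := STB_uc hf hε q
    obtain ⟨N, hN⟩ := h1 δ hδ
    refine ⟨q * N, fun n hn => ?_⟩
    have h2 : N ≤ n / q := by
      rw [Nat.le_div_iff_mul_le hq, Nat.mul_comm]
      exact hn
    have h3 := hN (n / q) h2
    rw [Real.dist_eq, sub_zero, abs_of_nonneg dist_nonneg] at h3 ⊢
    rw [STB_split f q n x, STB_split f q n P]
    exact hd (n % q) (Nat.mod_lt n hq) _ _ h3
  · intro x hx
    have h1 : Tendsto (fun n : ℕ => dist (f^[n] x) (f^[n] P)) atTop (𝓝 0) := hx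
    show Tendsto (fun n : ℕ => dist ((f^[q])^[n] x) ((f^[q])^[n] P)) atTop (𝓝 0)
    have h2 : Tendsto (fun n : ℕ => q * n) atTop atTop :=
      tendsto_atTop_mono (fun n => Nat.le_mul_of_pos_left n hq) tendsto_id
    refine (h1.comp h2).congr fun n => ?_
    simp only [comp_apply, Function.iterate_mul]

theorem stU_image (hffi : ∀ x, f (fi x) = x) (hfif : ∀ x, fi (f x) = x) : f '' stU f = stU f := by
  unfold stU
  apply Subset.antisymm
  · rintro _ ⟨x, hx, rfl⟩
    simp only [mem_iUnion] at hx ⊢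
    obtain ⟨P, hP, hx⟩ := hx
    refine ⟨f P, ?_, ?_⟩
    · obtain ⟨n, hn, h⟩ := hP
      exact ⟨n, hn, h.apply⟩
    · have h1 : Tendsto (fun n : ℕ => dist (f^[n] x) (f^[n] P)) atTop (𝓝 0) := hx
      show Tendsto (fun n : ℕ => dist (f^[n] (f x)) (f^[n] (f P))) atTop (𝓝 0)
      have h2 := h1.comp (tendsto_add_atTop_nat 1)
      refine h2.congr fun n => ?_
      simp only [comp_apply, iterate_succ_apply]
  · intro x hx
    simp only [mem_iUnion] at hx
    obtain ⟨P, hP, hx⟩ := hx
    refine ⟨fi x, ?_, hffi x⟩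
    simp only [mem_iUnion]
    refine ⟨fi P, ?_, ?_⟩
    · obtain ⟨n, hn, h⟩ := hP
      refine ⟨n, hn, ?_⟩
      have h1 : f (f^[n] (fi P)) = f (fi P) := by
        rw [← iterate_succ_apply' f n, iterate_succ_apply, hffi]
        exact h
      have h2 := congrArg fi h1
      rwa [hfif, hfif] at h2
    · show Tendsto (fun n : ℕ => dist (f^[n] (fi x)) (f^[n] (fi P))) atTop (𝓝 0)
      have h1 : Tendsto (fun n : ℕ => dist (f^[n] x) (f^[n] P)) atTop (𝓝 0) := hx
      rw [← tendsto_add_atTop_iff_nat 1]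
      refine h1.congr fun n => ?_
      simp only [iterate_succ_apply, hffi]

theorem per_iter {q : ℕ} (hq : 0 < q) : periodicPts (f^[q]) = periodicPts f := by
  ext x
  constructor
  · rintro ⟨n, hn, h⟩
    refine ⟨q * n, Nat.mul_pos hq hn, ?_⟩
    show f^[q * n] x = x
    rw [Function.iterate_mul]
    exact h
  · rintro ⟨n, hn, h⟩
    refine ⟨n, hn, ?_⟩
    show (f^[q])^[n] x = x
    rw [← Function.iterate_mul, Nat.mul_comm, Function.iterate_mul]
    exact Function.iterate_fixed h q

end BR
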