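import Pool.Agent.H91.BR.Base

/-!
TRI (multipliers on a surface).  All proofs are adaptations of `Pool/Agent/H36/DS/SM.lean` (same statements for the sphere: the proofs there use only the chain rule `mfderiv_comp` and linear algebra in
`E2`) and of `SL_hyp` in `Pool/Agent/H36/DS/SL.lean`; copy them with `S` in place of `S2` and `DS.Surf.` definitions.
`s_det`: `f^[n]` preserves the area form (induction, `mfderiv_comp`), so at a fixed point `P` of `f^[n]` the map `B = iterDeriv f n P` satisfies `om P (B v) (B w) = om P v w`; for a bilinear alternating form on a two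
dimensional space `om (B v) (B w) = det B * om v w` (choose a basis `v, w` with `om v w ≠ 0`, `IsAreaForm.ne`; see `det_one` in `Pool/Agent/H36/DS/SB.lean`), so `det B = 1`.
`s_tri`: as `trichotomy` with `hS.det1 := s_det`, `hS.h1 := h1`, `hS.cf`.
`s_hyp`: `f^[n]` at `fi Q` is conjugate to `f^[n]` at `Q` by the differential of `f` (invertible with inverse the differential of `fi`), the minimal periods are equal; the characteristic polynomials are equal.
`s_iter`: iterates of the system.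
-/

namespace BR

open Metric Set Filter Topology Function CV
open DS.Surf (iterDeriv IsMultiplier Hyperbolic Cond1 PreservesArea IsAreaForm)
open scoped Manifold ContDiff

section lin

private theorem TRI_charpoly (A : E2 →ₗ[ℝ] E2) (hA : LinearMap.det A = 1) :
    A.charpoly = Polynomial.X ^ 2 - Polynomial.C (LinearMap.trace ℝ E2 A) * Polynomial.X + 1 := by
  have b : Module.Basis (Fin 2) ℝ E2 := (EuclideanSpace.basisFun (Fin 2) ℝ).toBasis
  rw [← LinearMap.charpoly_toMatrix A b, Matrix.charpoly_fin_two, LinearMap.trace_eq_matrix_trace ℝ b A,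
    LinearMap.det_toMatrix, hA, map_one]

private theorem TRI_sq (A : E2 →ₗ[ℝ] E2) (hA : LinearMap.det A = 1) :
    A ^ 2 = (LinearMap.trace ℝ E2 A) • A - 1 := by
  have h := LinearMap.aeval_self_charpoly A
  rw [TRI_charpoly A hA] at h
  simp only [map_add, map_sub, map_mul, map_pow, Polynomial.aeval_X, Polynomial.aeval_C, map_one,
    Module.algebraMap_end_eq_smul_id] at h
  have h2 : (LinearMap.trace ℝ E2 A • LinearMap.id) * A = LinearMap.trace ℝ E2 A • A := by
    ext x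
    rfl
  rw [h2] at h
  have h3 : A ^ 2 = (A ^ 2 - (LinearMap.trace ℝ E2 A) • A + 1) + ((LinearMap.trace ℝ E2 A) • A - 1) := by
    abel
  rw [h, zero_add] at h3
  exact h3

private theorem TRI_tr_one : LinearMap.trace ℝ E2 (1 : E2 →ₗ[ℝ] E2) = 2 := by
  rw [LinearMap.trace_one]
  simp

private theorem TRI_rec (A : E2 →ₗ[ℝ] E2) (hA : LinearMap.det A = 1) (k : ℕ) :
    LinearMap.trace ℝ E2 (A ^ (k + 2)) =
      LinearMap.trace ℝ E2 A * LinearMap.trace ℝ E2 (A ^ (k + 1)) - LinearMap.trace ℝ E2 (A ^ k) := by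
  have h : A ^ (k + 2) = (LinearMap.trace ℝ E2 A) • A ^ (k + 1) - A ^ k := by
    rw [pow_add, TRI_sq A hA, mul_sub, mul_one, mul_smul_comm, ← pow_succ]
  rw [h, map_sub, map_smul, smul_eq_mul]

private theorem TRI_complex (A : E2 →ₗ[ℝ] E2) (hA : LinearMap.det A = 1) (z : ℂ) (hz0 : z ≠ 0)
    (hz : z + z⁻¹ = ((LinearMap.trace ℝ E2 A : ℝ) : ℂ)) (k : ℕ) :
    ((LinearMap.trace ℝ E2 (A ^ k) : ℝ) : ℂ) = z ^ k + z⁻¹ ^ k ∧
    ((LinearMap.trace ℝ E2 (A ^ (k + 1)) : ℝ) : ℂ) = z ^ (k + 1) + z⁻¹ ^ (k + 1) := by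
  induction k with
  | zero =>
    refine ⟨?_, ?_⟩
    · rw [pow_zero, TRI_tr_one]
      norm_num
    · rw [zero_add, pow_one, pow_one, pow_one, hz]
  | succ k ih =>
    refine ⟨ih.2, ?_⟩
    rw [show k + 1 + 1 = k + 2 by ring, TRI_rec A hA k]
    push_cast
    rw [ih.1, ih.2, ← hz]
    have h1 : z * z⁻¹ = 1 := mul_inv_cancel₀ hz0
    have e1 : z * z⁻¹ ^ (k + 1) = z⁻¹ ^ k := by
      rw [pow_succ', ← mul_assoc, h1, one_mul]
    have e2 : z⁻¹ * z ^ (k + 1) = z ^ k := by
      rw [pow_succ', ← mul_assoc, inv_mul_cancel₀ hz0, one_mul]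
    have e3 : z * z ^ (k + 1) = z ^ (k + 2) := (pow_succ' z (k + 1)).symm
    have e4 : z⁻¹ * z⁻¹ ^ (k + 1) = z⁻¹ ^ (k + 2) := (pow_succ' z⁻¹ (k + 1)).symm
    linear_combination e1 + e2 + e3 + e4

private theorem TRI_root (A : E2 →ₗ[ℝ] E2) (hA : LinearMap.det A = 1) (μ : ℂ) :
    μ ∈ (A.charpoly.map (algebraMap ℝ ℂ)).roots ↔
      μ ^ 2 - ((LinearMap.trace ℝ E2 A : ℝ) : ℂ) * μ + 1 = 0 := by
  have hne : A.charpoly.map (algebraMap ℝ ℂ) ≠ 0 :=
    ((LinearMap.charpoly_monic A).map _).ne_zero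
  rw [Polynomial.mem_roots hne, Polynomial.IsRoot, TRI_charpoly A hA]
  simp

/-- real trace at most `2` forces modulus one -/
private theorem TRI_norm (w : ℂ) (T : ℝ) (hT : |T| ≤ 2) (hw : w ^ 2 - (T : ℂ) * w + 1 = 0) : ‖w‖ = 1 := by
  have hre := congrArg Complex.re hw
  have him := congrArg Complex.im hw
  simp only [Complex.add_re, Complex.sub_re, Complex.mul_re, Complex.ofReal_re, Complex.ofReal_im,
    Complex.one_re, Complex.zero_re, pow_two, zero_mul, sub_zero] at hre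
  simp only [Complex.add_im, Complex.sub_im, Complex.mul_im, Complex.ofReal_re, Complex.ofReal_im,
    Complex.one_im, Complex.zero_im, pow_two, zero_mul, add_zero] at him
  have hT2 : T ^ 2 ≤ 4 := by
    have := sq_le_sq' (abs_le.mp hT).1 (abs_le.mp hT).2
    linarith
  have hsq : w.re ^ 2 + w.im ^ 2 = 1 := by
    have h1 : w.im * (2 * w.re - T) = 0 := by linarith
    rcases mul_eq_zero.mp h1 with h2 | h2
    · have h3 : (w.re - T / 2) ^ 2 = T ^ 2 / 4 - 1 := by
        rw [h2] at hre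
        nlinarith
      have h4 : (w.re - T / 2) ^ 2 = 0 := le_antisymm (by linarith) (sq_nonneg _)
      have h5 : w.re = T / 2 := by
        have := pow_eq_zero_iff (n := 2) (by norm_num) |>.mp h4
        linarith
      rw [h2, h5]
      nlinarith
    · have h5 : T = 2 * w.re := by linarith
      rw [h5] at hre
      nlinarith
  have h6 : ‖w‖ ^ 2 = 1 := by
    rw [← Complex.normSq_eq_norm_sq, Complex.normSq_apply]
    nlinarith
  exact (pow_eq_one_iff_of_nonneg (norm_nonneg w) (by norm_num)).mp h6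


private theorem TRI_basis (v : E2) : v = v 0 • (EuclideanSpace.single 0 1 : E2) +
    v 1 • (EuclideanSpace.single 1 1 : E2) := by
  ext i
  fin_cases i <;> simp

private theorem TRI_form (w : E2 →ₗ[ℝ] E2 →ₗ[ℝ] ℝ) (halt : ∀ v, w v v = 0) (u v : E2) :
    w u v = (u 0 * v 1 - u 1 * v 0) *
      w (EuclideanSpace.single 0 1) (EuclideanSpace.single 1 1) := by
  set x : E2 := EuclideanSpace.single 0 1 with hx
  set y : E2 := EuclideanSpace.single 1 1 with hy
  have hyx : w y x = - w x y := by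
    have h := halt (x + y)
    simp only [map_add, LinearMap.add_apply, halt, zero_add, add_zero] at h
    linarith
  have h1 : w u v = w (u 0 • x + u 1 • y) (v 0 • x + v 1 • y) := by
    rw [hx, hy, ← TRI_basis u, ← TRI_basis v]
  rw [h1]
  simp only [map_add, map_smul, LinearMap.add_apply, LinearMap.smul_apply, smul_eq_mul, halt, hyx]
  ring

private theorem TRI_alt (w : E2 →ₗ[ℝ] E2 →ₗ[ℝ] ℝ) (halt : ∀ v, w v v = 0) (A : E2 →ₗ[ℝ] E2)
    (u v : E2) : w (A u) (A v) = LinearMap.det A * w u v := by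
  set x : E2 := EuclideanSpace.single 0 1 with hx
  set y : E2 := EuclideanSpace.single 1 1 with hy
  have hdet : LinearMap.det A = (A x) 0 * (A y) 1 - (A y) 0 * (A x) 1 := by
    rw [← LinearMap.det_toMatrix (EuclideanSpace.basisFun (Fin 2) ℝ).toBasis, Matrix.det_fin_two]
    simp [LinearMap.toMatrix_apply, hx, hy]
  have hA : ∀ u : E2, A u = u 0 • A x + u 1 • A y := by
    intro u
    conv_lhs => rw [TRI_basis u]
    rw [map_add, map_smul, map_smul]
  rw [TRI_form w halt (A u) (A v), TRI_form w halt u v, hdet, hA u, hA v]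
  simp only [PiLp.add_apply, PiLp.smul_apply, smul_eq_mul]
  ring

end lin

section gen

variable {S : Type} [MetricSpace S] [ChartedSpace E2 S] [IsManifold (𝓡 2) ∞ S]

private theorem TRI_iter {f : S → S} (cf : ContMDiff (𝓡 2) (𝓡 2) 1 f) (k : ℕ) :
    ContMDiff (𝓡 2) (𝓡 2) 1 (f^[k]) := by
  induction k with
  | zero => exact contMDiff_id
  | succ k ih =>
    rw [Function.iterate_succ']
    exact cf.comp ih

private theorem TRI_add {f : S → S} (cf : ContMDiff (𝓡 2) (𝓡 2) 1 f) (a b : ℕ) (P : S) :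
    iterDeriv f (a + b) P = (iterDeriv f a (f^[b] P)).comp (iterDeriv f b P) := by
  unfold iterDeriv
  rw [Function.iterate_add]
  exact mfderiv_comp P ((TRI_iter cf a).mdifferentiable (by norm_num) (f^[b] P))
    ((TRI_iter cf b).mdifferentiable (by norm_num) P)

private theorem TRI_pow {f : S → S} (cf : ContMDiff (𝓡 2) (𝓡 2) 1 f) {m : ℕ} {P : S}
    (hP : f^[m] P = P) (k : ℕ) :
    (iterDeriv f (m * k) P : E2 →ₗ[ℝ] E2) = (iterDeriv f m P : E2 →ₗ[ℝ] E2) ^ k := by
  induction k with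
  | zero =>
    rw [Nat.mul_zero, pow_zero]
    unfold iterDeriv
    rw [Function.iterate_zero, mfderiv_id]
    rfl
  | succ k ih =>
    rw [Nat.mul_succ, TRI_add cf, hP, pow_succ, ← ih]
    rfl

/-- the differentials of `g` at `y` and of its inverse at `g y` are inverse to each other -/
private theorem TRI_equiv {g gi : S → S} (hg : ContMDiff (𝓡 2) (𝓡 2) 1 g)
    (hgi : ContMDiff (𝓡 2) (𝓡 2) 1 gi) (hggi : ∀ x, g (gi x) = x) (hgig : ∀ x, gi (g x) = x)
    (y : S) : ∃ e : E2 ≃ₗ[ℝ] E2, ∀ v : E2, e v = mfderiv (𝓡 2) (𝓡 2) g y v := by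
  let A : E2 →L[ℝ] E2 := mfderiv (𝓡 2) (𝓡 2) g y
  let B : E2 →L[ℝ] E2 := mfderiv (𝓡 2) (𝓡 2) gi (g y)
  have hA : HasMFDerivAt (𝓡 2) (𝓡 2) g y A := (hg.mdifferentiable (by norm_num) y).hasMFDerivAt
  have hB : HasMFDerivAt (𝓡 2) (𝓡 2) gi (g y) B :=
    (hgi.mdifferentiable (by norm_num) (g y)).hasMFDerivAt
  have hA' : HasMFDerivAt (𝓡 2) (𝓡 2) g (gi (g y)) A := by rw [hgig]; exact hA
  have h1 : HasMFDerivAt (𝓡 2) (𝓡 2) (gi ∘ g) y (B.comp A) := hB.comp y hA
  have h2 : HasMFDerivAt (𝓡 2) (𝓡 2) (g ∘ gi) (g y) (A.comp B) := hA'.comp (g y) hB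
  have e1 : gi ∘ g = id := funext hgig
  have e2 : g ∘ gi = id := funext hggi
  rw [e1] at h1
  rw [e2] at h2
  have h3 := hasMFDerivAt_unique h1 (hasMFDerivAt_id y)
  have h4 := hasMFDerivAt_unique h2 (hasMFDerivAt_id (g y))
  refine ⟨LinearEquiv.ofLinearMap (A : E2 →ₗ[ℝ] E2) (B : E2 →ₗ[ℝ] E2)
      (LinearMap.ext fun v => congrArg (fun L => L v) h4)
      (LinearMap.ext fun v => congrArg (fun L => L v) h3), fun v => rfl⟩

private theorem TRI_comm {f fi : S → S} (hffi : ∀ x, f (fi x) = x) (hfif : ∀ x, fi (f x) = x) (n : ℕ) :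
    ∀ x : S, f^[n] (fi x) = fi (f^[n] x) := by
  induction n with
  | zero => intro x; rfl
  | succ n ih =>
    intro x
    rw [Function.iterate_succ_apply', ih, hffi, Function.iterate_succ_apply', hfif]


private theorem TRI_comp {f g : S → S} (cf : ContMDiff (𝓡 2) (𝓡 2) 1 f)
    (cg : ContMDiff (𝓡 2) (𝓡 2) 1 g)
    {om : ∀ x : S, TangentSpace (𝓡 2) x →ₗ[ℝ] TangentSpace (𝓡 2) x →ₗ[ℝ] ℝ}
    (hf : PreservesArea om f) (hg : PreservesArea om g) : PreservesArea om (f ∘ g) := by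
  intro x v w
  have h1 : mfderiv (𝓡 2) (𝓡 2) (f ∘ g) x =
      (mfderiv (𝓡 2) (𝓡 2) f (g x)).comp (mfderiv (𝓡 2) (𝓡 2) g x) :=
    mfderiv_comp x (cf.mdifferentiable (by norm_num) (g x)) (cg.mdifferentiable (by norm_num) x)
  rw [h1]
  exact (hf (g x) _ _).trans (hg x v w)

private theorem TRI_pres {f : S → S} (cf : ContMDiff (𝓡 2) (𝓡 2) 1 f)
    {om : ∀ x : S, TangentSpace (𝓡 2) x →ₗ[ℝ] TangentSpace (𝓡 2) x →ₗ[ℝ] ℝ}
    (hf : PreservesArea om f) (k : ℕ) : PreservesArea om (f^[k]) := by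
  induction k with
  | zero =>
    intro x v w
    rw [Function.iterate_zero, mfderiv_id]
    rfl
  | succ k ih =>
    rw [Function.iterate_succ']
    exact TRI_comp cf (TRI_iter cf k) hf ih

private theorem TRI_inv {f fi : S → S} (hffi : ∀ x, f (fi x) = x) (n : ℕ) :
    ∀ x : S, f^[n] (fi^[n] x) = x := by
  induction n with
  | zero => intro x; rfl
  | succ n ih =>
    intro x
    rw [Function.iterate_succ_apply, Function.iterate_succ_apply', hffi, ih]

end gen

variable {S : Type} [MetricSpace S] [ChartedSpace E2 S] [IsManifold (𝓡 2) ∞ S] {f fi : S → S}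
  {om : ∀ x : S, TangentSpace (𝓡 2) x →ₗ[ℝ] TangentSpace (𝓡 2) x →ₗ[ℝ] ℝ}

theorem s_iter (hS : SSys f fi om) (n : ℕ) : SSys (f^[n]) (fi^[n]) om :=
  ⟨TRI_iter hS.cf n, TRI_iter hS.cfi n, TRI_inv hS.ffi n, TRI_inv hS.fif n, hS.area,
    TRI_pres hS.cf hS.pres n⟩

theorem s_det (hS : SSys f fi om) {n : ℕ} {P : S} (hP : f^[n] P = P) :
    (DS.Surf.iterDeriv f n P).det = 1 := by
  set A : E2 →L[ℝ] E2 := iterDeriv f n P with hA
  have h1 : ∀ (y : S), y = f^[n] P → ∀ v w : E2, om y (A v) (A w) = om P v w := by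
    rintro y rfl v w
    exact TRI_pres hS.cf hS.pres n P v w
  have h2 := h1 P hP.symm
  obtain ⟨a, b, hab⟩ := hS.area.ne P
  let w : E2 →ₗ[ℝ] E2 →ₗ[ℝ] ℝ := om P
  have halt : ∀ v : E2, w v v = 0 := fun v => hS.area.alt P v
  have h4 : w (A a) (A b) = w a b := h2 a b
  have h5 := TRI_alt w halt (A : E2 →ₗ[ℝ] E2) a b
  simp only [ContinuousLinearMap.coe_coe] at h5
  rw [h4] at h5
  have hab' : w a b ≠ 0 := hab
  have h7 : LinearMap.det (A : E2 →ₗ[ℝ] E2) = 1 := by
    have h8 : LinearMap.det (A : E2 →ₗ[ℝ] E2) * w a b = 1 * w a b := by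
      rw [one_mul]
      exact h5.symm
    exact mul_right_cancel₀ hab' h8
  exact h7

theorem s_tri (hS : SSys f fi om) (h1 : DS.Surf.Cond1 f) {n : ℕ} (hn : 0 < n) {P : S}
    (hP : f^[n] P = P) : |str f n P| < 2 ∨ (DS.Surf.Hyperbolic f P ∧ 2 < |str f n P|) := by
  have hcond := h1
  have hper : P ∈ periodicPts f := mk_mem_periodicPts hn hP
  obtain ⟨q, hq⟩ : ∃ q, q = minimalPeriod f P := ⟨_, rfl⟩
  have hqP : f^[q] P = P := by rw [hq]; exact iterate_minimalPeriod
  obtain ⟨k, hk⟩ : q ∣ n := by rw [hq]; exact IsPeriodicPt.minimalPeriod_dvd hP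
  have hk0 : 0 < k := by
    rcases Nat.eq_zero_or_pos k with h | h
    · rw [h, Nat.mul_zero] at hk; omega
    · exact h
  set A : E2 →ₗ[ℝ] E2 := (iterDeriv f q P : E2 →ₗ[ℝ] E2) with hAdef
  have hA : LinearMap.det A = 1 := s_det hS hqP
  have htr : str f n P = LinearMap.trace ℝ E2 (A ^ k) := by
    unfold str
    rw [hk, TRI_pow hS.cf hqP k]
  have hmult : ∀ μ : ℂ, IsMultiplier f P μ ↔ μ ^ 2 - ((LinearMap.trace ℝ E2 A : ℝ) : ℂ) * μ + 1 = 0 := by
    intro μ
    unfold IsMultiplier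
    rw [← hq]
    exact TRI_root A hA μ
  -- a root
  obtain ⟨z, hz⟩ : ∃ z : ℂ, z ^ 2 - ((LinearMap.trace ℝ E2 A : ℝ) : ℂ) * z + 1 = 0 := by
    obtain ⟨s, hs⟩ := IsAlgClosed.exists_pow_nat_eq
      (((LinearMap.trace ℝ E2 A : ℝ) : ℂ) ^ 2 - 4) (n := 2) (by norm_num)
    refine ⟨(((LinearMap.trace ℝ E2 A : ℝ) : ℂ) + s) / 2, ?_⟩
    linear_combination (1 / 4) * hs
  have hz0 : z ≠ 0 := by
    rintro rfl
    norm_num at hz
  have hzz : z + z⁻¹ = ((LinearMap.trace ℝ E2 A : ℝ) : ℂ) := by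
    field_simp
    linear_combination hz
  have hT := (TRI_complex A hA z hz0 hzz k).1
  rw [← htr] at hT
  by_cases hnorm : ‖z‖ = 1
  · left
    set w := z ^ k with hw
    have hwn : ‖w‖ = 1 := by rw [hw, norm_pow, hnorm, one_pow]
    have hwinv : z⁻¹ ^ k = (starRingEnd ℂ) w := by
      rw [inv_pow, ← hw, Complex.inv_def, Complex.normSq_eq_norm_sq, hwn]
      simp
    rw [hwinv, Complex.add_conj] at hT
    have hT' : str f n P = 2 * w.re := by exact_mod_cast hT
    have hre : |w.re| ≤ 1 := by rw [← hwn]; exact Complex.abs_re_le_norm w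
    have hne : |w.re| ≠ 1 := by
      intro h1
      have h2 : w.re ^ 2 = 1 := by rw [← sq_abs, h1, one_pow]
      have h3 : w.re ^ 2 + w.im ^ 2 = 1 := by
        have : ‖w‖ ^ 2 = 1 := by rw [hwn, one_pow]
        rw [← Complex.normSq_eq_norm_sq, Complex.normSq_apply] at this
        nlinarith
      have h4 : w.im = 0 := by
        have : w.im ^ 2 = 0 := by linarith
        exact pow_eq_zero_iff (n := 2) (by norm_num) |>.mp this
      have h5 : w ^ 2 = 1 := by
        apply Complex.ext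
        · rw [pow_two, Complex.mul_re, h4]
          simp only [mul_zero, sub_zero, Complex.one_re]
          nlinarith
        · rw [pow_two, Complex.mul_im, h4]
          simp
      have h6 : z ^ (k * 2) = 1 := by rw [pow_mul, ← hw]; exact h5
      exact hcond P hper z ((hmult z).2 hz) (k * 2) (by omega) h6
    rw [hT', abs_mul, abs_two]
    have := lt_of_le_of_ne hre hne
    linarith
  · right
    constructor
    · refine ⟨hper, fun μ hμ => ?_⟩
      have h1 := (hmult μ).1 hμ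
      have h2 : (μ - z) * (μ - z⁻¹) = 0 := by
        have h3 : z * z⁻¹ = 1 := mul_inv_cancel₀ hz0
        rw [← hzz] at h1
        linear_combination h1 + h3
      rcases mul_eq_zero.mp h2 with h3 | h3
      · rw [sub_eq_zero.mp h3]; exact hnorm
      · rw [sub_eq_zero.mp h3, norm_inv]
        intro h4
        exact hnorm (inv_eq_one.mp h4)
    · by_contra hcon
      push Not at hcon
      set w := z ^ k with hw
      have hw0 : w ≠ 0 := pow_ne_zero _ hz0
      have hroot : w ^ 2 - ((str f n P : ℝ) : ℂ) * w + 1 = 0 := by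
        rw [hT, inv_pow, ← hw]
        field_simp
        ring
      have h1 := TRI_norm w (str f n P) hcon hroot
      rw [hw, norm_pow] at h1
      exact hnorm ((pow_eq_one_iff_of_nonneg (norm_nonneg z) hk0.ne').mp h1)

theorem s_hyp (hS : SSys f fi om) {Q : S} (hQ : DS.Surf.Hyperbolic f Q) :
    DS.Surf.Hyperbolic f (fi Q) := by
  have h := hQ
  have hper : fi Q ∈ periodicPts f := by
    obtain ⟨n, hn, hnQ⟩ := h.1
    refine mk_mem_periodicPts hn ?_
    show f^[n] (fi Q) = fi Q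
    rw [TRI_comm hS.ffi hS.fif, hnQ]
  have hmin : minimalPeriod f (fi Q) = minimalPeriod f Q := by
    have := minimalPeriod_apply hper
    rw [hS.ffi] at this
    exact this.symm
  refine ⟨hper, fun μ hμ => h.2 μ ?_⟩
  unfold IsMultiplier at hμ ⊢
  rw [hmin] at hμ
  obtain ⟨q, hq⟩ : ∃ q, q = minimalPeriod f Q := ⟨_, rfl⟩
  rw [← hq] at hμ ⊢
  have hqQ : f^[q] Q = Q := by rw [hq]; exact iterate_minimalPeriod
  obtain ⟨e, he⟩ := TRI_equiv hS.cf hS.cfi hS.ffi hS.fif (fi Q)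
  have key : (iterDeriv f q Q : E2 →ₗ[ℝ] E2) =
      e.conj (iterDeriv f q (fi Q) : E2 →ₗ[ℝ] E2) := by
    have c1 : mfderiv (𝓡 2) (𝓡 2) (f^[q] ∘ f) (fi Q) =
        (mfderiv (𝓡 2) (𝓡 2) (f^[q]) (f (fi Q))).comp (mfderiv (𝓡 2) (𝓡 2) f (fi Q)) :=
      mfderiv_comp (fi Q) ((TRI_iter hS.cf q).mdifferentiable (by norm_num) _)
        (hS.cf.mdifferentiable (by norm_num) _)
    have c2 : mfderiv (𝓡 2) (𝓡 2) (f ∘ f^[q]) (fi Q) =
        (mfderiv (𝓡 2) (𝓡 2) f (f^[q] (fi Q))).comp (mfderiv (𝓡 2) (𝓡 2) (f^[q]) (fi Q)) :=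
      mfderiv_comp (fi Q) (hS.cf.mdifferentiable (by norm_num) _)
        ((TRI_iter hS.cf q).mdifferentiable (by norm_num) _)
    have c3 : f^[q] ∘ f = f ∘ f^[q] := by
      rw [← Function.iterate_succ, ← Function.iterate_succ']
    have hqf : f^[q] (fi Q) = fi Q := by rw [TRI_comm hS.ffi hS.fif, hqQ]
    rw [c3, c2, hS.ffi, hqf] at c1
    apply LinearMap.ext
    intro v
    rw [LinearEquiv.conj_apply_apply]
    have h1 : ∀ w : E2, e (iterDeriv f q (fi Q) w) = iterDeriv f q Q (e w) := by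
      intro w
      rw [he, he]
      exact congrArg (fun L => L w) c1
    have h2 := h1 (e.symm v)
    rw [LinearEquiv.apply_symm_apply] at h2
    exact h2.symm
  rw [key, LinearEquiv.charpoly_conj]
  exact hμ

end BR
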