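import Pool.Agent.H91.BR.LCD
import Pool.Agent.H91.BR.TRI
import Pool.Agent.H91.BR.STB

/-!
CNC (cond_c2; the header is common with CNT).  `g = f^[q]`, `gi = fi^[q]`, `Hyp = DS.Surf.Hyperbolic f`.
`per`: `per_iter`.  `inv`: `s_hyp`, `q` times.
`tri`: `T x = A c (G^[n] x)` is a `CLift` of `h = f^[q * n] = g^[n]` (`L.cg`, `L.lift`, `L.mG`, `Deck.fibre`, `Deck.maps`, `Deck.cont`; `Lift.iter` of `DK.lean`), `T P = P`, so `f^[q * n] (p P) = p P`.  `clift_deriv`: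
`E (fderiv ℝ T P v) = B (E v)` with `E = mfderiv p P : ℂ → E2` bijective linear and `B = iterDeriv f (q * n) (p P)` (here `p (T P) = p P`; rewrite `T P = P` first in the statement for a general point: the differential of `p` is
taken at `T P`), so the traces of `fderiv ℝ T P` and `B` are equal (`LinearMap.trace_conj'` with the linear equivalence of `E`): trace `= str f (q * n) (p P)`; `s_tri`.
`c2`: let `P, Q, x, v, w` be given.  The curve `α` of `TanX (StabX X p g P) x v`: `p ∘ α` is `C¹` on `Ioo (-1) 1` (`ContMDiffOn.comp`, `hp.sm`), its points are in `DS.Surf.stableSet g (p P) = DS.Surf.stableSet f (p P)` (`stab_iter`),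
`(p ∘ α) 0 = p x`, velocity `mfderiv p x v` (chain rule), nonzero as `mfderiv p x` is injective: `DS.Surf.TangentTo (DS.Surf.stableSet f (p P)) (p x) (mfderiv p x v)`.  The same for `Q` with `fi`.  `Cond2` gives the linear independence of
`![E v, E w]`, hence of `![v, w]` (`LinearIndependent.of_comp`, or with `LinearIndependent.pair_iff`).
-/

namespace BR

open Metric Set Filter Topology Function CV
open scoped Manifold ContDiff

variable {S : Type} [MetricSpace S] [ChartedSpace E2 S] [IsManifold (𝓡 2) ∞ S] [CompactSpace S]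
  {X : Set ℂ} {Γ : Type} [Group Γ] {A : Γ → ℂ → ℂ} {p : ℂ → S} {f fi : S → S}
  {om : ∀ x : S, TangentSpace (𝓡 2) x →ₗ[ℝ] TangentSpace (𝓡 2) x →ₗ[ℝ] ℝ}

omit [IsManifold (𝓡 2) ∞ S] in
theorem CNC_tan (hX : IsOpen X) (hp : Smo X p) {h : S → S} (hh : Continuous h) {q : ℕ}
    (hq : 0 < q) {P x v : ℂ} (hv : TanX (StabX X p (h^[q]) P) x v) :
    x ∈ X ∧ p x ∈ DS.Surf.stableSet h (p P) ∧
      DS.Surf.TangentTo (DS.Surf.stableSet h (p P)) (p x) (mfderiv 𝓘(ℝ, ℂ) (𝓡 2) p x v) := by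
  obtain ⟨hv0, α, hα, hW, rfl, rfl⟩ := hv
  have h00 : (0 : ℝ) ∈ Ioo (-1 : ℝ) 1 := ⟨by norm_num, by norm_num⟩
  have hst : ∀ t ∈ Ioo (-1 : ℝ) 1, p (α t) ∈ DS.Surf.stableSet h (p P) := by
    intro t ht
    rw [← stab_iter hh hq]
    exact (hW t ht).2
  have hx : α 0 ∈ X := (hW 0 h00).1
  have hnb : Ioo (-1 : ℝ) 1 ∈ 𝓝 (0 : ℝ) := Ioo_mem_nhds h00.1 h00.2
  have hαd : DifferentiableAt ℝ α 0 := (hα.contDiffAt hnb).differentiableAt one_ne_zero
  have hαm : MDifferentiableAt 𝓘(ℝ, ℝ) 𝓘(ℝ, ℂ) α 0 := hαd.mdifferentiableAt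
  have hpx : MDifferentiableAt 𝓘(ℝ, ℂ) (𝓡 2) p (α 0) :=
    (hp.sm.contMDiffAt (hX.mem_nhds hx)).mdifferentiableAt one_ne_zero
  refine ⟨hx, hst 0 h00, ?_, fun t => p (α t), ?_, hst, rfl, ?_⟩
  · intro hz
    apply hv0
    apply (hp.bij _ hx).1
    rw [hz]
    exact (map_zero _).symm
  · exact hp.sm.comp hα.contMDiffOn fun t ht => (hW t ht).1
  · have e1 := mfderiv_comp 0 hpx hαm
    have e2 := congrArg (fun L : ℝ →L[ℝ] E2 => L 1) e1
    rw [mfderiv_eq_fderiv] at e2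
    exact e2

theorem cond_c2 (D : Deck X A p) (hp : Smo X p) (hS : SSys f fi om) (h2 : DS.Surf.Cond2 f fi) {q : ℕ}
    (hq : 0 < q) {P Q : ℂ} (hP : P ∈ X) (hQ : Q ∈ X) (hHP : DS.Surf.Hyperbolic f (p P))
    (hHQ : DS.Surf.Hyperbolic f (p Q)) {x v w : ℂ} (hv : TanX (StabX X p (f^[q]) P) x v)
    (hw : TanX (StabX X p (fi^[q]) Q) x w) : LinearIndependent ℝ ![v, w] := by
  obtain ⟨hx, m1, t1⟩ := CNC_tan D.opn hp hS.cf.continuous hq hv
  obtain ⟨-, m2, t2⟩ := CNC_tan D.opn hp hS.cfi.continuous hq hw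
  have h3 := h2 (p P) (p Q) hHP hHQ (p x) ⟨m1, m2⟩ _ _ t1 t2
  let E : ℂ →L[ℝ] E2 := mfderiv 𝓘(ℝ, ℂ) (𝓡 2) p x
  apply LinearIndependent.of_comp (E : ℂ →ₗ[ℝ] E2)
  have h4 : (E : ℂ →ₗ[ℝ] E2) ∘ ![v, w] = ![E v, E w] := by
    funext i
    fin_cases i <;> rfl
  rw [h4]
  exact h3

end BR
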