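import Pool.Agent.H91.BR.CNT
import Pool.Agent.H91.BR.CNC

/-!
CND (conditions 1 and 2 in the covering), assembly (helper91).
-/

namespace BR

open Metric Set Filter Topology Function CV
open scoped Manifold ContDiff

variable {S : Type} [MetricSpace S] [ChartedSpace E2 S] [IsManifold (𝓡 2) ∞ S] [CompactSpace S]
  {X : Set ℂ} {Γ : Type} [Group Γ] {A : Γ → ℂ → ℂ} {p : ℂ → S} {f fi : S → S}
  {om : ∀ x : S, TangentSpace (𝓡 2) x →ₗ[ℝ] TangentSpace (𝓡 2) x →ₗ[ℝ] ℝ}

theorem exists_cond (D : Deck X A p) (hp : Smo X p) (hS : SSys f fi om) (h1 : DS.Surf.Cond1 f)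
    (h2 : DS.Surf.Cond2 f fi) {q : ℕ} (hq : 0 < q) {G Gi : ℂ → ℂ} {θ : Γ ≃* Γ} {ρ : ℂ → ℝ}
    (L : Lift X A p (f^[q]) (fi^[q]) G Gi θ ρ) :
    Cond X A p (f^[q]) (fi^[q]) G (DS.Surf.Hyperbolic f) where
  per s hs := by
    rw [per_iter hq]
    exact hs.1
  inv s hs := by
    clear L
    induction q with
    | zero => exact hs
    | succ n ih =>
      rw [iterate_succ_apply']
      rcases Nat.eq_zero_or_pos n with h | h
      · subst h
        exact s_hyp hS hs
      · exact s_hyp hS (ih h)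
  tri n hn c P hP hfix := cond_tri D hp hS h1 hq L hn c hP hfix
  c2 P hP Q hQ hHP hHQ x v w hv hw := cond_c2 D hp hS h2 hq hP hQ hHP hHQ hv hw

end BR
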