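import Pool.Agent.H91.BR.LCD
import Pool.Agent.H91.BR.TRI
import Pool.Agent.H91.BR.STB

/-!
CNT (cond_tri; the header is common with CNC).  `g = f^[q]`, `gi = fi^[q]`, `Hyp = DS.Surf.Hyperbolic f`.
`per`: `per_iter`.  `inv`: `s_hyp`, `q` times.
`tri`: `T x = A c (G^[n] x)` is a `CLift` of `h = f^[q * n] = g^[n]` (`L.cg`, `L.lift`, `L.mG`, `Deck.fibre`, `Deck.maps`, `Deck.cont`; `Lift.iter` of `DK.lean`), `T P = P`, so `f^[q * n] (p P) = p P`.  `clift_deriv`: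
`E (fderiv ℝ T P v) = B (E v)` with `E = mfderiv p P : ℂ → E2` bijective linear and `B = iterDeriv f (q * n) (p P)` (here `p (T P) = p P`; rewrite `T P = P` first in the statement for a general point: the differential of `p` is
taken at `T P`), so the traces of `fderiv ℝ T P` and `B` are equal (`LinearMap.trace_conj'` with the linear equivalence of `E`): trace `= str f (q * n) (p P)`; `s_tri`.
`c2`: let `P, Q, x, v, w` be given.  The curve `α` of `TanX (StabX X p g P) x v`: `p ∘ α` is `C¹` on `Ioo (-1) 1` (`ContMDiffOn.comp`, `hp.sm`), its points are in `DS.Surf.stableSet g (p P) = DS.Surf.stableSet f (p P)` (`stab_iter`),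
`(p ∘ α) 0 = p x`, velocity `mfderiv p x v` (chain rule), nonzero as `mfderiv p x` is injective: `DS.Surf.TangentTo (DS.Surf.stableSet f (p P)) (p x) (mfderiv p x v)`.  The same for `Q` with `fi`.  `Cond2` gives the linear independence of
`![E v, E w]`, hence of `![v, w]` (`LinearIndependent.of_comp`, or with `LinearIndependent.pair_iff`).
-/

namespace BR

open Metric Set Filter Topology Function CV
open scoped Manifold ContDiff

variable {S : Type} [MetricSpace S] [ChartedSpace E2 S] [IsManifold (𝓡 2) ∞ S] [CompactSpace S]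
  {X : Set ℂ} {Γ : Type} [Group Γ] {A : Γ → ℂ → ℂ} {p : ℂ → S} {f fi : S → S}
  {om : ∀ x : S, TangentSpace (𝓡 2) x →ₗ[ℝ] TangentSpace (𝓡 2) x →ₗ[ℝ] ℝ}

theorem CNT_trace (E : ℂ →L[ℝ] E2) (hE : Bijective E) (T : ℂ →L[ℝ] ℂ) (B : E2 →L[ℝ] E2)
    (h : ∀ v, E (T v) = B (E v)) :
    LinearMap.trace ℝ ℂ (T : ℂ →ₗ[ℝ] ℂ) = LinearMap.trace ℝ E2 (B : E2 →ₗ[ℝ] E2) := by
  let e : ℂ ≃ₗ[ℝ] E2 := LinearEquiv.ofBijective (E : ℂ →ₗ[ℝ] E2) hE
  have h1 : (B : E2 →ₗ[ℝ] E2) = e.conj (T : ℂ →ₗ[ℝ] ℂ) := by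
    apply LinearMap.ext
    intro v
    obtain ⟨w, rfl⟩ := e.surjective v
    rw [LinearEquiv.conj_apply_apply, LinearEquiv.symm_apply_apply]
    exact (h w).symm
  rw [h1, LinearMap.trace_conj']

theorem cond_tri (D : Deck X A p) (hp : Smo X p) (hS : SSys f fi om) (h1 : DS.Surf.Cond1 f) {q : ℕ}
    (hq : 0 < q) {G Gi : ℂ → ℂ} {θ : Γ ≃* Γ} {ρ : ℂ → ℝ}
    (L : Lift X A p (f^[q]) (fi^[q]) G Gi θ ρ) {n : ℕ} (hn : 0 < n) (c : Γ) {P : ℂ} (hP : P ∈ X)
    (hfix : A c (G^[n] P) = P) :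
    |LinearMap.trace ℝ ℂ (fderiv ℝ (fun x => A c (G^[n] x)) P : ℂ →ₗ[ℝ] ℂ)| < 2 ∨
      (DS.Surf.Hyperbolic f (p P) ∧
        2 < |LinearMap.trace ℝ ℂ (fderiv ℝ (fun x => A c (G^[n] x)) P : ℂ →ₗ[ℝ] ℂ)|) := by
  obtain ⟨i1, -, -, -, i5, -, -, i8⟩ := L.iter n
  obtain ⟨T, hT⟩ : ∃ T : ℂ → ℂ, T = fun x => A c (G^[n] x) := ⟨_, rfl⟩
  have hC : CLift X p (f^[q * n]) T := by
    refine ⟨?_, ?_, ?_⟩
    · rw [hT]
      exact (D.cont c).comp i5.continuousOn i1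
    · rw [hT]
      exact fun x hx => D.maps c (i1 hx)
    · intro x hx
      rw [hT, Function.iterate_mul]
      show p (A c (G^[n] x)) = _
      rw [D.fibre c (i1 hx)]
      exact i8 x hx
  have hTP : T P = P := by rw [hT]; exact hfix
  have hfP : f^[q * n] (p P) = p P := by
    rw [← hC.lift P hP, hTP]
  have hd := clift_deriv D.opn hp (s_iter hS (q * n)).cf hC hP
  rw [hTP] at hd
  have htr := CNT_trace (mfderiv 𝓘(ℝ, ℂ) (𝓡 2) p P) (hp.bij P hP) (fderiv ℝ T P)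
    (DS.Surf.iterDeriv f (q * n) (p P)) hd
  rw [← hT, htr]
  exact s_tri hS h1 (Nat.mul_pos hq hn) hfP

end BR
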