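import Pool.Agent.H91.BR.Base

/-!
CVM (lifting through the covering `p : X → S`).
`lift_unique`: the set `{x ∈ X | H₁ x = H₂ x}` is closed in `X` (continuity) and open: if `H₁ x = H₂ x = z`, by `Deck.loc` (`Pool/Agent/H12/CV/DK.lean`) or directly from `proper` and `free` there is a ball about `z`
in `X` whose translates by `g ≠ 1` are disjoint from it; for `y` near `x` both `H₁ y`, `H₂ y` are in this ball and `H₂ y = A g (H₁ y)` for some `g` (`fib`), so
`g = 1`.  `X` is connected (`Deck.conn`).
`lift_exists`: let `π : X → S` be the restriction of `p` to the subtype.  It is a covering map: either `isQuotientCoveringMap_of_properlyDiscontinuousSMul`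
(`Mathlib/Topology/Covering/Quotient.lean`) with the action of `Γ` on the subtype `X` (discrete topology on `Γ`; `Deck.maps`, `Deck.cont`, `mul`, `one`; properly
discontinuous: `proper`; free: `free`; `π` is a quotient map since it is continuous, open (`pop`) and onto (`ps`); fibres are orbits: `fib`), or
`IsQuotientCoveringMap` directly with its field `disjoint` from `Deck.loc`.  The subtype `X` is simply connected (convex and nonempty: contractible) and locally path connected
(open subset of `ℂ`: `IsOpen.locallyPathConnectedSpace`).  `IsCoveringMap.existsUnique_continuousMap_lifts` (`Mathlib/Topology/Homotopy/Lifting.lean`) for `h ∘ π : X → S` gives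
the lift with `x₀ ↦ y₀`; extend it to `ℂ` by `0` outside of `X`.
-/

namespace BR

open Metric Set Filter Topology Function CV
open scoped Manifold ContDiff

variable {S : Type} [MetricSpace S] {X : Set ℂ} {Γ : Type} [Group Γ] {A : Γ → ℂ → ℂ} {p : ℂ → S}

/-- the action of the deck group on the subtype -/
@[reducible] def dact (D : Deck X A p) : MulAction Γ X where
  smul g x := ⟨A g x, D.maps g x.2⟩
  one_smul x := Subtype.ext (D.one x x.2)
  mul_smul g h x := Subtype.ext (D.mul g h x x.2)

theorem pi_isCov (D : Deck X A p) : IsCoveringMap (fun x : X => p x) := by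
  letI := dact D
  have hc : Continuous (fun x : X => p x) := D.pc.comp_continuous continuous_subtype_val fun x => x.2
  have ho : IsOpenMap (fun x : X => p x) := by
    intro O hO
    have h1 : (fun x : X => p x) '' O = p '' (Subtype.val '' O) := by
      rw [image_image]
    rw [h1]
    refine D.pop _ ?_ (D.opn.isOpenMap_subtype_val O hO)
    rintro _ ⟨x, -, rfl⟩
    exact x.2
  have hs : Surjective (fun x : X => p x) := by
    intro s
    obtain ⟨x, hx, rfl⟩ := D.ps s
    exact ⟨⟨x, hx⟩, rfl⟩
  have hq : IsQuotientCoveringMap (fun x : X => p x) Γ := by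
    refine ⟨ho.isQuotientMap hc hs, ⟨fun g => ?_⟩, ?_, ?_⟩
    · refine Continuous.subtype_mk ?_ _
      exact (D.cont g).comp_continuous continuous_subtype_val fun x => x.2
    · intro e₁ e₂
      constructor
      · intro h
        obtain ⟨g, hg⟩ := (D.fib e₂ e₂.2 e₁ e₁.2).1 h.symm
        exact ⟨g, Subtype.ext hg⟩
      · rintro ⟨g, hg⟩
        have h1 : A g e₂ = e₁ := congrArg Subtype.val hg
        exact ((D.fib e₂ e₂.2 e₁ e₁.2).2 ⟨g, h1⟩).symm
    · intro e
      obtain ⟨r, hr, hrX, hd⟩ := D.loc e.2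
      refine ⟨Subtype.val ⁻¹' ball (e : ℂ) r, ?_, ?_⟩
      · exact continuous_subtype_val.continuousAt.preimage_mem_nhds (ball_mem_nhds _ hr)
      · intro g hg
        by_contra hne
        obtain ⟨_, ⟨y, hy, rfl⟩, hy2⟩ := hg
        exact Set.disjoint_left.1 (hd g hne) ⟨y, hy, rfl⟩ hy2
  exact hq.isCoveringMap

theorem lift_unique (D : Deck X A p) {h : S → S} {H₁ H₂ : ℂ → ℂ} (h1 : CLift X p h H₁)
    (h2 : CLift X p h H₂) {x₀ : ℂ} (hx₀ : x₀ ∈ X) (h0 : H₁ x₀ = H₂ x₀) : EqOn H₁ H₂ X := by
  have : PreconnectedSpace X := isPreconnected_iff_preconnectedSpace.1 D.conn.isPreconnected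
  have c1 : Continuous fun x : X => (⟨H₁ x, h1.maps x.2⟩ : X) :=
    Continuous.subtype_mk (h1.cont.comp_continuous continuous_subtype_val fun x => x.2) _
  have c2 : Continuous fun x : X => (⟨H₂ x, h2.maps x.2⟩ : X) :=
    Continuous.subtype_mk (h2.cont.comp_continuous continuous_subtype_val fun x => x.2) _
  have he := (pi_isCov D).eq_of_comp_eq c1 c2
    (funext fun x => (h1.lift x x.2).trans (h2.lift x x.2).symm) ⟨x₀, hx₀⟩ (Subtype.ext h0)
  intro x hx
  exact congrArg Subtype.val (congrFun he ⟨x, hx⟩)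

theorem lift_exists (D : Deck X A p) {h : S → S} (hh : Continuous h) {x₀ y₀ : ℂ} (hx₀ : x₀ ∈ X)
    (hy₀ : y₀ ∈ X) (h0 : p y₀ = h (p x₀)) : ∃ H : ℂ → ℂ, CLift X p h H ∧ H x₀ = y₀ := by
  have hconv : Convex ℝ X := by
    rcases D.hX with ⟨h, -⟩ | ⟨h, -⟩
    · rw [h]; exact convex_univ
    · rw [h]; exact convex_ball _ _
  have : ContractibleSpace X := hconv.contractibleSpace ⟨x₀, hx₀⟩
  have : LocallyPathConnectedSpace X := D.opn.locallyPathConnectedSpace
  have hc : Continuous (fun x : X => p x) := D.pc.comp_continuous continuous_subtype_val fun x => x.2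
  obtain ⟨F, ⟨hF0, hF⟩, -⟩ := (pi_isCov D).existsUnique_continuousMap_lifts
    (⟨fun x : X => h (p x), hh.comp hc⟩ : C(X, S)) ⟨x₀, hx₀⟩ ⟨y₀, hy₀⟩ h0
  classical
  refine ⟨fun x => if hx : x ∈ X then (F ⟨x, hx⟩ : ℂ) else 0, ⟨?_, ?_, ?_⟩, ?_⟩
  · rw [continuousOn_iff_continuous_domRestrict]
    have h1 : X.domRestrict (fun x => if hx : x ∈ X then (F ⟨x, hx⟩ : ℂ) else 0) =
        fun x : X => (F x : ℂ) := by
      funext x
      change (if hx : (x : ℂ) ∈ X then (F ⟨x, hx⟩ : ℂ) else 0) = _
      rw [dif_pos x.2]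
    rw [h1]
    exact continuous_subtype_val.comp F.continuous
  · intro x hx
    simp only [dif_pos hx]
    exact (F ⟨x, hx⟩).2
  · intro x hx
    simp only [dif_pos hx]
    exact congrFun hF ⟨x, hx⟩
  · simp only [dif_pos hx₀]
    rw [hF0]

end BR
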