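import Pool.Agent.H91.BR.LOC
import Pool.Agent.H12.CV.MM

/-!
DKD (the deck group of a quotient of the disc).  `DS.Surf.moeb c b` is `TN.mob c b` (same formula).
Group.  Let `B = ball 0 1`, `Γ` the subgroup of `Equiv.Perm B` of the permutations `σ` such that there are `u b` with `‖u‖ = 1`, `‖b‖ < 1` and
`(σ x : ℂ) = mob u b x` for all `x ∈ B`, and `p (σ x) = p x` for all `x ∈ B`.  It is closed under products and inverses: `mob u b ∘ mob u' b'` is again of this form on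
`B`, and the inverse of `mob u b` is `mob u⁻¹ (-u b)` (explicit; see `mob_inv`, `mob_comp` or similar names in `Pool/Agent/H12/TN/MB.lean`, or use `auto_mob` of
`Pool/Agent/H12/CV/MM.lean`: a holomorphic bijection of the disc is of the form `mob u b`).  `A σ = mob u b` with chosen parameters.
`one`, `mul`: on `B` both sides are the value of the permutation.  `fib`: if `p x = p y`, `DiscUnif` gives `c b` with `moeb c b x = y` and `p ∘ moeb c b = p` on `B`: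
`moeb c b` is a permutation of `B`, in `Γ`.  Conversely clear.
`free`: let `σ ∈ Γ`, `σ x = x`.  By `loc_inj` `p` is injective on a neighbourhood `W` of `x`; for `y` near `x` both `y` and `σ y` are in `W` and `p (σ y) = p y`, so
`σ y = y`; a Moebius map that is the identity near `x` is the identity on `B` (identity theorem `AnalyticOnNhd.eqOn_of_preconnected_of_eventuallyEq`, or `mob_unique`), `σ = 1`.
`proper`: suppose that infinitely many `g` have `x ∈ C` with `A g x ∈ C`; an injective sequence `g_n`, `x_n`, `A g_n x_n = y_n ∈ C`.  The parameters: `‖b_n‖ ≤ r < 1`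
(`b_n` is the zero of `A g_n`; the pseudo-hyperbolic distance of `b_n` and `x_n` is that of `0` and `y_n`, at most `max ‖C‖ < 1`; or: `1 - ‖mob u b x‖² = (1 - ‖b‖²)(1 - ‖x‖²)/‖1 - conj b x‖²`
and `‖1 - conj b x‖ ≥ 1 - ‖x‖` give `1 - ‖b_n‖² ≥ (1 - ‖y_n‖²)(1 - ‖x_n‖)²`), so by compactness a subsequence converges: `u_n → u`, `b_n → b`, `‖u‖ = 1`, `‖b‖ ≤ r`.  Then
`A g_n 0 = -u_n b_n` converges to some `w ∈ B`; `p (A g_n 0) = p 0` for all `n`, and `p` is injective near `w`, so `A g_n 0 = A g_m 0` for large `n, m` of the subsequence; by `free`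
(`g_m⁻¹ g_n` fixes `0`) `g_n = g_m`: contradiction.
`pc`, `pop` (`loc_open`), `ps`: clear.  `hX`: right.
-/

namespace BR

open Metric Set Filter Topology Function CV
open scoped Manifold ContDiff

variable {S : Type}

theorem DKD_conj {u : ℂ} (hu : ‖u‖ = 1) : ‖(starRingEnd ℂ) u‖ = 1 := by
  rw [RCLike.norm_conj]; exact hu

theorem DKD_neg {u b : ℂ} (hu : ‖u‖ = 1) (hb : ‖b‖ < 1) : ‖-(u * b)‖ < 1 := by
  rw [norm_neg, norm_mul, hu, one_mul]; exact hb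

theorem DKD_maps {u b : ℂ} (hu : ‖u‖ = 1) (hb : ‖b‖ < 1) :
    MapsTo (TN.mob u b) (ball 0 1) (ball 0 1) := by
  intro x hx
  rw [mem_ball_zero_iff] at hx ⊢
  exact TN.mob_ball hu hb hx

theorem DKD_comp {u b u' b' : ℂ} (hu : ‖u‖ = 1) (hb : ‖b‖ < 1) (hu' : ‖u'‖ = 1) (hb' : ‖b'‖ < 1) :
    ∃ v c : ℂ, ‖v‖ = 1 ∧ ‖c‖ < 1 ∧
      ∀ z ∈ ball (0:ℂ) 1, TN.mob u b (TN.mob u' b' z) = TN.mob v c z := by
  refine auto_mob (T := fun z => TN.mob u b (TN.mob u' b' z))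
    (Ti := fun z => TN.mob ((starRingEnd ℂ) u') (-(u' * b'))
      (TN.mob ((starRingEnd ℂ) u) (-(u * b)) z)) ?_ ?_ ?_ ?_ ?_ ?_
  · exact (MM_diff hb).comp (MM_diff hb') (DKD_maps hu' hb')
  · exact (MM_diff (DKD_neg hu' hb')).comp (MM_diff (DKD_neg hu hb))
      (DKD_maps (DKD_conj hu) (DKD_neg hu hb))
  · exact (DKD_maps hu hb).comp (DKD_maps hu' hb')
  · exact (DKD_maps (DKD_conj hu') (DKD_neg hu' hb')).comp
      (DKD_maps (DKD_conj hu) (DKD_neg hu hb))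
  · intro z hz
    have h1 := (mem_ball_zero_iff.1 (DKD_maps hu' hb' hz)).le
    rw [(TN.mob_comp_inv hu hb h1).1, (TN.mob_comp_inv hu' hb' (mem_ball_zero_iff.1 hz).le).1]
  · intro z hz
    have h1 := (mem_ball_zero_iff.1 (DKD_maps (DKD_conj hu) (DKD_neg hu hb) hz)).le
    rw [(TN.mob_comp_inv hu' hb' h1).2, (TN.mob_comp_inv hu hb (mem_ball_zero_iff.1 hz).le).2]

/-- the deck group of `p` -/
def DKD_grp (p : ℂ → S) : Subgroup (Equiv.Perm (ball (0:ℂ) 1)) where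
  carrier := {σ | (∃ u b : ℂ, ‖u‖ = 1 ∧ ‖b‖ < 1 ∧
    ∀ x : ball (0:ℂ) 1, ((σ x : ball (0:ℂ) 1) : ℂ) = TN.mob u b x) ∧
    ∀ x : ball (0:ℂ) 1, p (σ x) = p x}
  mul_mem' := by
    rintro σ τ ⟨⟨u, b, hu, hb, h⟩, hp⟩ ⟨⟨u', b', hu', hb', h'⟩, hp'⟩
    obtain ⟨v, c, hv, hc, h''⟩ := DKD_comp hu hb hu' hb'
    refine ⟨⟨v, c, hv, hc, fun x => ?_⟩, fun x => ?_⟩
    · rw [Equiv.Perm.mul_apply, h, h', h'' x x.2]
    · rw [Equiv.Perm.mul_apply, hp, hp']
  one_mem' := by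
    refine ⟨⟨1, 0, norm_one, by simp, fun x => ?_⟩, fun x => rfl⟩
    simp [TN.mob]
  inv_mem' := by
    rintro σ ⟨⟨u, b, hu, hb, h⟩, hp⟩
    refine ⟨⟨(starRingEnd ℂ) u, -(u * b), DKD_conj hu, DKD_neg hu hb, fun x => ?_⟩, fun x => ?_⟩
    · obtain ⟨y, rfl⟩ := σ.surjective x
      have h1 : σ⁻¹ (σ y) = y := σ.symm_apply_apply y
      rw [h1, h]
      exact (TN.mob_comp_inv hu hb (mem_ball_zero_iff.1 y.2).le).1.symm
    · obtain ⟨y, rfl⟩ := σ.surjective x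
      have h1 : σ⁻¹ (σ y) = y := σ.symm_apply_apply y
      rw [h1, hp]

theorem DKD_mem {p : ℂ → S} {u b : ℂ} (hu : ‖u‖ = 1) (hb : ‖b‖ < 1)
    (h : ∀ x ∈ ball (0:ℂ) 1, p (TN.mob u b x) = p x) :
    ∃ σ ∈ DKD_grp p, ∀ x : ball (0:ℂ) 1, ((σ x : ball (0:ℂ) 1) : ℂ) = TN.mob u b x := by
  refine ⟨⟨fun x => ⟨TN.mob u b x, DKD_maps hu hb x.2⟩,
    fun x => ⟨TN.mob ((starRingEnd ℂ) u) (-(u * b)) x,
      DKD_maps (DKD_conj hu) (DKD_neg hu hb) x.2⟩, fun x => ?_, fun x => ?_⟩, ?_, fun x => rfl⟩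
  · exact Subtype.ext (TN.mob_comp_inv hu hb (mem_ball_zero_iff.1 x.2).le).1
  · exact Subtype.ext (TN.mob_comp_inv hu hb (mem_ball_zero_iff.1 x.2).le).2
  · exact ⟨⟨u, b, hu, hb, fun x => rfl⟩, fun x => h x x.2⟩

/-- a Moebius map commuting with a locally injective `p` and with a fixed point is the identity -/
theorem DKD_id {p : ℂ → S} {u b : ℂ} (hb : ‖b‖ < 1)
    (h : ∀ x ∈ ball (0:ℂ) 1, p (TN.mob u b x) = p x) {x : ℂ} (hx : x ∈ ball (0:ℂ) 1)
    (hW : ∃ W ∈ 𝓝 x, InjOn p W) (hfix : TN.mob u b x = x) :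
    ∀ y ∈ ball (0:ℂ) 1, TN.mob u b y = y := by
  obtain ⟨W, hW, hinj⟩ := hW
  have hd : DifferentiableOn ℂ (TN.mob u b) (ball 0 1) := MM_diff hb
  have ha : AnalyticOnNhd ℂ (TN.mob u b) (ball 0 1) := hd.analyticOnNhd isOpen_ball
  have hc : ContinuousAt (TN.mob u b) x := (ha x hx).continuousAt
  have h1 : ∀ᶠ y in 𝓝 x, TN.mob u b y ∈ W := hc.eventually_mem (by rw [hfix]; exact hW)
  have h2 : (TN.mob u b) =ᶠ[𝓝 x] id := by
    filter_upwards [h1, hW, isOpen_ball.mem_nhds hx] with y hy1 hy2 hy3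
    exact hinj hy1 hy2 (h y hy3)
  exact ha.eqOn_of_preconnected_of_eventuallyEq analyticOnNhd_id
    (convex_ball (0 : ℂ) 1).isPreconnected hx h2

theorem deck_disc {S : Type} [MetricSpace S] [ChartedSpace E2 S] [IsManifold (𝓡 2) ∞ S]
    (h : DS.Surf.DiscUnif S) :
    ∃ (Γ : Type) (_ : Group Γ) (A : Γ → ℂ → ℂ) (p : ℂ → S), Deck (ball 0 1) A p ∧ Smo (ball 0 1) p := by
  obtain ⟨p, hsm, hsurj, hbij, hfib⟩ := h
  have hS : Smo (ball 0 1) p := ⟨hsm.of_le (by exact_mod_cast le_top), hbij⟩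
  have hli : ∀ x ∈ ball (0:ℂ) 1, ∃ W ∈ 𝓝 x, InjOn p W := fun x hx => loc_inj isOpen_ball hS hx
  choose u b hu hb hA using fun g : DKD_grp p => g.2.1
  have hgp : ∀ g : DKD_grp p, ∀ x ∈ ball (0:ℂ) 1, p (TN.mob (u g) (b g) x) = p x := by
    intro g x hx
    have := g.2.2 ⟨x, hx⟩
    rw [hA] at this
    exact this
  have hfree : ∀ g : DKD_grp p, ∀ x ∈ ball (0:ℂ) 1, TN.mob (u g) (b g) x = x → g = 1 := by
    intro g x hx hfix
    have h1 := DKD_id (hb g) (hgp g) hx (hli x hx) hfix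
    refine Subtype.ext (Equiv.ext fun y => Subtype.ext ?_)
    rw [hA, h1 y y.2]
    rfl
  have hmul : ∀ g h : DKD_grp p, ∀ x ∈ ball (0:ℂ) 1,
      TN.mob (u (g * h)) (b (g * h)) x = TN.mob (u g) (b g) (TN.mob (u h) (b h) x) := by
    intro g h x hx
    have h1 := hA (g * h) ⟨x, hx⟩
    have h2 : ((g * h : DKD_grp p) : Equiv.Perm (ball (0:ℂ) 1)) ⟨x, hx⟩ =
      (g : Equiv.Perm (ball (0:ℂ) 1)) ((h : Equiv.Perm (ball (0:ℂ) 1)) ⟨x, hx⟩) := rfl
    rw [h2, hA g, hA h] at h1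
    exact h1.symm
  have hone : ∀ x ∈ ball (0:ℂ) 1, TN.mob (u 1) (b 1) x = x := by
    intro x hx
    have h1 := hA 1 ⟨x, hx⟩
    exact h1.symm
  have hinv : ∀ g : DKD_grp p, ∀ x ∈ ball (0:ℂ) 1,
      TN.mob (u g⁻¹) (b g⁻¹) (TN.mob (u g) (b g) x) = x := by
    intro g x hx
    rw [← hmul g⁻¹ g x hx, inv_mul_cancel, hone x hx]
  have hext : ∀ g h : DKD_grp p, ∀ x ∈ ball (0:ℂ) 1,
      TN.mob (u g) (b g) x = TN.mob (u h) (b h) x → g = h := by
    intro g h x hx he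
    have h1 : h⁻¹ * g = 1 := by
      refine hfree _ x hx ?_
      rw [hmul h⁻¹ g x hx, he, hinv h x hx]
    exact (inv_mul_eq_one.1 h1).symm
  refine ⟨DKD_grp p, inferInstance, fun g => TN.mob (u g) (b g), p, ⟨?_, hone, hmul, ?_, ?_, ?_, ?_, ?_, ?_⟩, hS⟩
  · exact Or.inr ⟨rfl, fun g => ⟨u g, b g, hu g, hb g, fun x => rfl⟩⟩
  · intro g hg x hx he
    exact hg (hfree g x hx he)
  · -- proper
    intro C hC hCc
    obtain ⟨ρ, hρ, hCρ⟩ : ∃ ρ < 1, ∀ x ∈ C, ‖x‖ ≤ ρ := by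
      rcases C.eq_empty_or_nonempty with rfl | hne
      · exact ⟨0, one_pos, fun x hx => absurd hx (notMem_empty x)⟩
      · obtain ⟨x, hx, hmax⟩ := hCc.exists_isMaxOn hne continuous_norm.continuousOn
        exact ⟨‖x‖, mem_ball_zero_iff.1 (hC hx), fun y hy => hmax hy⟩
    obtain ⟨s, hs, hsb⟩ := TN.norm_le_of_pd (ρ := ρ) (r := ρ) hρ hρ
    have hbs : ∀ g : DKD_grp p, (∃ x ∈ C, TN.mob (u g) (b g) x ∈ C) → ‖b g‖ ≤ s := by
      rintro g ⟨x, hx, hgx⟩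
      refine hsb x (b g) (hCρ x hx) (hb g) ?_
      have h1 := TN.mob_pd (hu g) (hb g) (mem_ball_zero_iff.1 (hC hx)).le (hb g)
      rw [← h1]
      have h2 : TN.mob (u g) (b g) (b g) = 0 := by simp [TN.mob]
      rw [h2, TN.pd]
      simpa using hCρ _ hgx
    by_contra hinf
    have hinf : {g : DKD_grp p | ∃ x ∈ C, TN.mob (u g) (b g) x ∈ C}.Infinite := hinf
    have hinj : Injective fun g : DKD_grp p => (u g, b g) := by
      intro g h he
      simp only [Prod.mk.injEq] at he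
      refine hext g h 0 (mem_ball_self one_pos) ?_
      rw [he.1, he.2]
    have hK : IsCompact (sphere (0:ℂ) 1 ×ˢ closedBall (0:ℂ) s) :=
      (isCompact_sphere _ _).prod (isCompact_closedBall _ _)
    have hinf2 := hinf.image hinj.injOn
    have hsub : (fun g : DKD_grp p => (u g, b g)) ''
        {g : DKD_grp p | ∃ x ∈ C, TN.mob (u g) (b g) x ∈ C} ⊆
        sphere (0:ℂ) 1 ×ˢ closedBall (0:ℂ) s := by
      rintro _ ⟨g, hg, rfl⟩
      exact ⟨mem_sphere_zero_iff_norm.2 (hu g), mem_closedBall_zero_iff.2 (hbs g hg)⟩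
    obtain ⟨q, hq, hacc⟩ := hinf2.exists_accPt_of_subset_isCompact hK hsub
    have hq1 : ‖q.1‖ = 1 := mem_sphere_zero_iff_norm.1 hq.1
    have hq2 : ‖q.2‖ < 1 := (mem_closedBall_zero_iff.1 hq.2).trans_lt hs
    set w : ℂ := -(q.1 * q.2) with hw
    have hwb : w ∈ ball (0:ℂ) 1 := mem_ball_zero_iff.2 (DKD_neg hq1 hq2)
    obtain ⟨W, hW, hWi⟩ := hli w hwb
    have hcont : Continuous fun t : ℂ × ℂ => -(t.1 * t.2) := by fun_prop
    have hN : (fun t : ℂ × ℂ => -(t.1 * t.2)) ⁻¹' W ∈ 𝓝 q := hcont.continuousAt.preimage_mem_nhds hW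
    have hm0 : ∀ g : DKD_grp p, TN.mob (u g) (b g) 0 = -(u g * b g) := by
      intro g
      simp [TN.mob]
    -- two points near `q`
    have hfr := accPt_iff_frequently.1 hacc
    obtain ⟨t1, ⟨ht1, g1, hg1, hg1'⟩, hN1⟩ := (hfr.and_eventually hN).exists
    have hne : {t1}ᶜ ∈ 𝓝 q := isOpen_compl_singleton.mem_nhds (by
      rw [mem_compl_iff, mem_singleton_iff]
      exact fun h => ht1 h.symm)
    obtain ⟨t2, ⟨⟨ht2, g2, hg2, hg2'⟩, hN2⟩, hN3⟩ := ((hfr.and_eventually hN).and_eventually hne).exists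
    have e1 : TN.mob (u g1) (b g1) 0 = -(t1.1 * t1.2) := by rw [hm0, ← hg1']
    have e2 : TN.mob (u g2) (b g2) 0 = -(t2.1 * t2.2) := by rw [hm0, ← hg2']
    have h0 : (0:ℂ) ∈ ball (0:ℂ) 1 := mem_ball_self one_pos
    have h3 : TN.mob (u g1) (b g1) 0 = TN.mob (u g2) (b g2) 0 := by
      refine hWi ?_ ?_ ?_
      · rw [e1]; exact hN1
      · rw [e2]; exact hN2
      · rw [hgp g1 0 h0, hgp g2 0 h0]
    have h4 := hext g1 g2 0 h0 h3
    refine hN3 ?_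
    rw [mem_singleton_iff, ← hg1', ← hg2', h4]
  · exact hS.sm.continuousOn
  · intro O hO hOo
    exact loc_open isOpen_ball hS hO hOo
  · intro s
    have : s ∈ p '' ball 0 1 := by rw [hsurj]; exact mem_univ s
    exact this
  · intro x hx y hy
    constructor
    · intro he
      obtain ⟨c, b', hc, hb', hxy, hp⟩ := hfib x hx y hy he
      obtain ⟨σ, hσ, hσ'⟩ := DKD_mem (p := p) hc hb' hp
      refine ⟨⟨σ, hσ⟩, ?_⟩
      have h1 := hA ⟨σ, hσ⟩ ⟨x, hx⟩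
      rw [hσ'] at h1
      exact h1.symm.trans hxy
    · rintro ⟨g, rfl⟩
      exact (hgp g x hx).symm

end BR
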