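import Pool.Agent.H91.BR.LOC

/-!
DKF (the deck group of a quotient of the plane by translations).  Proof.  `h` gives `p`.  Let `Λ : AddSubgroup ℂ` be the group of `l` with
`∀ x, p (x + l) = p x`, `Γ = Multiplicative Λ`, `A g x = x + l`.  `Smo`: `ContMDiff.contMDiffOn`, `of_le`.  `hX`: left.  `one`, `mul` (add_comm), `free`
(`x + l = x` implies `l = 0`): clear.  `proper`: by `loc_inj` at `0` there is `ε > 0` with `p` injective on `ball 0 ε`, so `‖l‖ < ε`, `l ∈ Λ` implies `l = 0`
(`p (0 + l) = p 0`); so different elements of `Λ` have distance at least `ε`, and `{l | ∃ x ∈ C, x + l ∈ C}` is contained in a ball (`C` is bounded):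
a uniformly discrete bounded subset of `ℂ` is finite (e.g. cover the compact ball by finitely many balls of radius `ε / 2`, or `Metric.finite_isBounded_inter_isClosed`,
`IsCompact.finite`; `Set.Finite.preimage`).  `pc`: continuity.  `pop`: `loc_open`.  `ps`: surjectivity.  `fib`: `p x = p y` gives `y - x ∈ Λ` by the last property of `FlatUnif`.
-/

namespace BR

open Metric Set Filter Topology Function CV
open scoped Manifold ContDiff

theorem deck_flat {S : Type} [MetricSpace S] [ChartedSpace E2 S] [IsManifold (𝓡 2) ∞ S]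
    (h : DS.Surf.FlatUnif S) :
    ∃ (Γ : Type) (_ : Group Γ) (A : Γ → ℂ → ℂ) (p : ℂ → S), Deck univ A p ∧ Smo univ p := by
  obtain ⟨p, hsm, hsur, hbij, hdeck⟩ := h
  have hS : Smo univ p := ⟨(hsm.of_le (by simp)).contMDiffOn, fun z _ => hbij z⟩
  let Λ : AddSubgroup ℂ :=
    { carrier := {l | ∀ x, p (x + l) = p x}
      zero_mem' := fun x => by simp
      add_mem' := fun {a b} ha hb x => by rw [← add_assoc, hb, ha]
      neg_mem' := fun {a} ha x => by
        have := ha (x + -a)
        rw [neg_add_cancel_right] at this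
        exact this.symm }
  have hmem : ∀ l : ℂ, l ∈ Λ ↔ ∀ x, p (x + l) = p x := fun l => Iff.rfl
  obtain ⟨W, hW, hinj⟩ := loc_inj isOpen_univ hS (mem_univ (0:ℂ))
  obtain ⟨ε, hε, hball⟩ := Metric.mem_nhds_iff.1 hW
  have hsmall : ∀ l ∈ Λ, ‖l‖ < ε → l = 0 := by
    intro l hl hlt
    have h1 : l ∈ ball (0:ℂ) ε := by simpa using hlt
    have h2 : p l = p 0 := by
      have := (hmem l).1 hl 0
      rwa [zero_add] at this
    exact hinj (hball h1) (hball (mem_ball_self hε)) h2
  refine ⟨Multiplicative Λ, inferInstance, fun g x => x + ((Multiplicative.toAdd g : Λ) : ℂ), p,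
    ?_, hS⟩
  refine ⟨?_, ?_, ?_, ?_, ?_, ?_, ?_, ?_, ?_⟩
  · exact Or.inl ⟨rfl, fun g => ⟨((Multiplicative.toAdd g : Λ) : ℂ), fun x => rfl⟩⟩
  · intro x _
    simp
  · intro g h x _
    simp only [toAdd_mul, AddSubgroup.coe_add]
    ring
  · intro g hg x _ he
    apply hg
    have h0 : ((Multiplicative.toAdd g : Λ) : ℂ) = 0 := by
      have : x + ((Multiplicative.toAdd g : Λ) : ℂ) = x := he
      simpa using this
    have h1 : (Multiplicative.toAdd g : Λ) = 0 := by
      ext
      simpa using h0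
    exact Multiplicative.toAdd.injective (by simpa using h1)
  · intro C _ hC
    have hCC : IsCompact ((fun q : ℂ × ℂ => q.1 - q.2) '' (C ×ˢ C)) :=
      (hC.prod hC).image (continuous_fst.sub continuous_snd)
    obtain ⟨t, _, htf, htc⟩ := hCC.finite_cover_balls (half_pos hε)
    have hex : ∀ g : Multiplicative Λ, (∃ x ∈ C, x + ((Multiplicative.toAdd g : Λ) : ℂ) ∈ C) →
        ∃ c ∈ t, ((Multiplicative.toAdd g : Λ) : ℂ) ∈ ball c (ε / 2) := by
      rintro g ⟨x, hx, hxg⟩
      have h1 : ((Multiplicative.toAdd g : Λ) : ℂ) ∈ (fun q : ℂ × ℂ => q.1 - q.2) '' (C ×ˢ C) :=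
        ⟨(x + ((Multiplicative.toAdd g : Λ) : ℂ), x), ⟨hxg, hx⟩, by simp⟩
      have h2 := htc h1
      simp only [Set.mem_iUnion, exists_prop] at h2
      exact h2
    choose! c hc1 hc2 using hex
    refine Set.Finite.of_injOn (f := c) (t := t) (fun g hg => hc1 g hg) (fun g hg g' hg' he => ?_)
      htf
    have h1 := hc2 g hg
    have h2 := hc2 g' hg'
    have he' : c g = c g' := he
    rw [he'] at h1
    have h3 : ‖((Multiplicative.toAdd g : Λ) : ℂ) - ((Multiplicative.toAdd g' : Λ) : ℂ)‖ < ε := by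
      rw [← dist_eq_norm]
      calc dist ((Multiplicative.toAdd g : Λ) : ℂ) ((Multiplicative.toAdd g' : Λ) : ℂ)
          ≤ dist ((Multiplicative.toAdd g : Λ) : ℂ) (c g') +
            dist ((Multiplicative.toAdd g' : Λ) : ℂ) (c g') := dist_triangle_right _ _ _
        _ < ε / 2 + ε / 2 := add_lt_add h1 h2
        _ = ε := by ring
    have h4 := hsmall _ (Λ.sub_mem (Multiplicative.toAdd g).2 (Multiplicative.toAdd g').2) h3
    apply Multiplicative.toAdd.injective
    exact Subtype.ext (sub_eq_zero.1 h4)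
  · exact hsm.continuous.continuousOn
  · intro O hO hOo
    exact loc_open isOpen_univ hS hO hOo
  · intro s
    obtain ⟨x, hx⟩ := hsur s
    exact ⟨x, mem_univ x, hx⟩
  · intro x _ y _
    constructor
    · intro h
      refine ⟨Multiplicative.ofAdd (⟨y - x, (hmem _).2 (hdeck x y h)⟩ : Λ), ?_⟩
      simp
    · rintro ⟨g, hg⟩
      have h1 := (hmem _).1 (Multiplicative.toAdd g).2 x
      have hg' : x + ((Multiplicative.toAdd g : Λ) : ℂ) = y := hg
      rw [hg'] at h1
      exact h1.symm

end BR
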