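import Pool.Agent.H91.BR.Base

/-!
DOM (components of the preimage of a domain).  Let `Z = X ∩ p ⁻¹' V` (open: `p` is continuous on the open set `X`), `U = connectedComponentIn Z x₀`, open (`IsOpen.connectedComponentIn`),
connected.  `A c` maps `Z` homeomorphically onto `Z` (`Deck.maps`, `Deck.cont`, `Deck.inv_left`, `Deck.fibre`), so it maps components of `Z` onto components of `Z`
(use: `A c '' U` is connected, contained in `Z`, so contained in the component of each of its points; the same for `A c⁻¹`).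
`dom_onto`: `p '' U = V`: `V` is the union of the sets `p '' C`, `C` a component of `Z` (`ps`), open (`pop`); if `p '' C` meets `p '' U`, `p z = p u`, `z ∈ C`, `u ∈ U`, then
`u = A c z` (`fib`), `A c '' C` is the component of `u`, `= U`, so `p '' C = p '' (A c '' C) = p '' U`.  So `p '' U` and the union of the other `p '' C` are disjoint open sets covering the connected set
`V`, and the first one is not empty.
`dom_G`: `G` maps `Z` onto `Z` (`lift`, `g '' V = V`, `Gi`), homeomorphically, so `G '' U` is the component of `G x₀`; if `G x₀ ∈ U` it is `U`.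
`dom_stab`: `N = {c | A c '' U = U}` is a subgroup (`Deck.image_mul`, `Deck.image_inv`, `one`); for `c ∉ N` the components `A c '' U ≠ U` are disjoint.
-/

namespace BR

open Metric Set Filter Topology Function CV
open scoped Manifold ContDiff

variable {S : Type} [MetricSpace S] {X : Set ℂ} {Γ : Type} [Group Γ] {A : Γ → ℂ → ℂ} {p : ℂ → S}

/-- a self homeomorphism of `Z` permutes the components of `Z` -/
theorem DOM_image {Z : Set ℂ} {a b : ℂ → ℂ} (ha : ContinuousOn a Z) (hb : ContinuousOn b Z)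
    (ma : MapsTo a Z Z) (mb : MapsTo b Z Z) (hba : ∀ x ∈ Z, b (a x) = x)
    (hab : ∀ x ∈ Z, a (b x) = x) {x : ℂ} (hx : x ∈ Z) :
    a '' connectedComponentIn Z x = connectedComponentIn Z (a x) := by
  have key : ∀ {c : ℂ → ℂ}, ContinuousOn c Z → MapsTo c Z Z → ∀ y ∈ Z,
      c '' connectedComponentIn Z y ⊆ connectedComponentIn Z (c y) := by
    intro c hc mc y hy
    refine IsPreconnected.subset_connectedComponentIn
      (isPreconnected_connectedComponentIn.image _ (hc.mono (connectedComponentIn_subset _ _)))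
      (mem_image_of_mem _ (mem_connectedComponentIn hy)) ?_
    rintro _ ⟨z, hz, rfl⟩
    exact mc (connectedComponentIn_subset _ _ hz)
  apply Subset.antisymm (key ha ma x hx)
  intro y hy
  have h1 := key hb mb (a x) (ma hx) (mem_image_of_mem _ hy)
  rw [hba x hx] at h1
  exact ⟨b y, h1, hab y (connectedComponentIn_subset _ _ hy)⟩

theorem DOM_mapsA (D : Deck X A p) (V : Set S) (c : Γ) :
    MapsTo (A c) (X ∩ p ⁻¹' V) (X ∩ p ⁻¹' V) := by
  intro x hx
  refine ⟨D.maps c hx.1, ?_⟩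
  rw [mem_preimage, D.fibre c hx.1]
  exact hx.2

theorem DOM_imageA (D : Deck X A p) (V : Set S) (c : Γ) {x : ℂ} (hx : x ∈ X ∩ p ⁻¹' V) :
    A c '' connectedComponentIn (X ∩ p ⁻¹' V) x = connectedComponentIn (X ∩ p ⁻¹' V) (A c x) :=
  DOM_image (b := A c⁻¹) ((D.cont c).mono inter_subset_left) ((D.cont c⁻¹).mono inter_subset_left)
    (DOM_mapsA D V c) (DOM_mapsA D V c⁻¹) (fun _ hy => D.inv_left c hy.1)
    (fun _ hy => D.inv_right c hy.1) hx

theorem dom_onto (D : Deck X A p) {V : Set S} (hV : IsOpen V) (hVc : IsConnected V) {x₀ : ℂ}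
    (hx₀ : x₀ ∈ X) (hp : p x₀ ∈ V) : p '' connectedComponentIn (X ∩ p ⁻¹' V) x₀ = V := by
  have hZ : IsOpen (X ∩ p ⁻¹' V) := D.pc.isOpen_inter_preimage D.opn hV
  have hsub : ∀ z, connectedComponentIn (X ∩ p ⁻¹' V) z ⊆ X := fun z =>
    (connectedComponentIn_subset _ _).trans inter_subset_left
  have hsubV : ∀ z, p '' connectedComponentIn (X ∩ p ⁻¹' V) z ⊆ V := by
    rintro z _ ⟨y, hy, rfl⟩
    exact (connectedComponentIn_subset _ _ hy).2
  have hopen : ∀ z, IsOpen (p '' connectedComponentIn (X ∩ p ⁻¹' V) z) := fun z =>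
    D.pop _ (hsub z) hZ.connectedComponentIn
  have hx₀Z : x₀ ∈ X ∩ p ⁻¹' V := ⟨hx₀, hp⟩
  have hcompl : IsOpen (V \ p '' connectedComponentIn (X ∩ p ⁻¹' V) x₀) := by
    rw [isOpen_iff_mem_nhds]
    rintro s ⟨hsV, hs⟩
    obtain ⟨z, hzX, rfl⟩ := D.ps s
    have hzZ : z ∈ X ∩ p ⁻¹' V := ⟨hzX, hsV⟩
    refine mem_of_superset ((hopen z).mem_nhds (mem_image_of_mem _ (mem_connectedComponentIn hzZ))) ?_
    intro t ht
    refine ⟨hsubV z ht, ?_⟩
    obtain ⟨z', hz', rfl⟩ := ht
    rintro ⟨u, hu, hpu⟩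
    obtain ⟨c, hc⟩ := (D.fib z' (hsub z hz') u (hsub x₀ hu)).1 hpu.symm
    have h1 : A c '' connectedComponentIn (X ∩ p ⁻¹' V) z =
        connectedComponentIn (X ∩ p ⁻¹' V) x₀ := by
      rw [connectedComponentIn_eq hz', DOM_imageA D V c (connectedComponentIn_subset _ _ hz'), hc,
        ← connectedComponentIn_eq hu]
    have h2 : A c z ∈ connectedComponentIn (X ∩ p ⁻¹' V) x₀ := by
      rw [← h1]
      exact mem_image_of_mem _ (mem_connectedComponentIn hzZ)
    exact hs ⟨A c z, h2, D.fibre c hzX⟩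
  apply Subset.antisymm (hsubV x₀)
  refine IsPreconnected.subset_left_of_subset_union (hopen x₀) hcompl disjoint_sdiff_right ?_ ?_
    hVc.isPreconnected
  · rw [union_sdiff_self]
    exact subset_union_right
  · exact ⟨p x₀, hp, mem_image_of_mem _ (mem_connectedComponentIn hx₀Z)⟩

theorem dom_G (D : Deck X A p) {g gi : S → S} {G Gi : ℂ → ℂ} {θ : Γ ≃* Γ} {ρ : ℂ → ℝ}
    (L : Lift X A p g gi G Gi θ ρ) {V : Set S} (hV : IsOpen V) (hgV : g '' V = V) {x₀ : ℂ}
    (hx₀ : x₀ ∈ X) (hp : p x₀ ∈ V) (hG : G x₀ ∈ connectedComponentIn (X ∩ p ⁻¹' V) x₀) :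
    G '' connectedComponentIn (X ∩ p ⁻¹' V) x₀ = connectedComponentIn (X ∩ p ⁻¹' V) x₀ := by
  have mG : MapsTo G (X ∩ p ⁻¹' V) (X ∩ p ⁻¹' V) := by
    intro x hx
    refine ⟨L.mG hx.1, ?_⟩
    rw [mem_preimage, L.lift x hx.1, ← hgV]
    exact mem_image_of_mem _ hx.2
  have mGi : MapsTo Gi (X ∩ p ⁻¹' V) (X ∩ p ⁻¹' V) := by
    intro y hy
    refine ⟨L.mGi hy.1, ?_⟩
    have h1 : g (p (Gi y)) = p y := by
      rw [← L.lift _ (L.mGi hy.1), L.GGi y hy.1]
    have h2 : p y ∈ g '' V := by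
      rw [hgV]
      exact hy.2
    obtain ⟨v, hv, hvy⟩ := h2
    have h3 : p (Gi y) = v := by
      rw [← L.gig (p (Gi y)), h1, ← hvy, L.gig]
    rw [mem_preimage, h3]
    exact hv
  rw [DOM_image (b := Gi) (L.c1.continuousOn.mono inter_subset_left)
    (L.c1i.continuousOn.mono inter_subset_left) mG mGi (fun _ hy => L.GiG _ hy.1)
    (fun _ hy => L.GGi _ hy.1) ⟨hx₀, hp⟩]
  exact (connectedComponentIn_eq hG).symm

theorem dom_stab (D : Deck X A p) {V : Set S} (hV : IsOpen V) {x₀ : ℂ} (hx₀ : x₀ ∈ X)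
    (hp : p x₀ ∈ V) : ∃ N : Subgroup Γ,
      (∀ c, c ∈ N ↔ A c '' connectedComponentIn (X ∩ p ⁻¹' V) x₀ =
        connectedComponentIn (X ∩ p ⁻¹' V) x₀) ∧
      ∀ c, c ∉ N → Disjoint (A c '' connectedComponentIn (X ∩ p ⁻¹' V) x₀)
        (connectedComponentIn (X ∩ p ⁻¹' V) x₀) := by
  have hsub : connectedComponentIn (X ∩ p ⁻¹' V) x₀ ⊆ X :=
    (connectedComponentIn_subset _ _).trans inter_subset_left
  refine ⟨{ carrier := {c | A c '' connectedComponentIn (X ∩ p ⁻¹' V) x₀ =
              connectedComponentIn (X ∩ p ⁻¹' V) x₀}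
            mul_mem' := ?_
            one_mem' := ?_
            inv_mem' := ?_ }, fun c => Iff.rfl, ?_⟩
  · intro c d hc hd
    simp only [mem_setOf_eq] at hc hd ⊢
    rw [D.image_mul c d hsub, hd, hc]
  · simp only [mem_setOf_eq]
    rw [image_congr fun x hx => D.one x (hsub hx)]
    exact image_id' _
  · intro c hc
    simp only [mem_setOf_eq] at hc ⊢
    conv_lhs => rw [← hc]
    exact D.image_inv c hsub
  · intro c hc
    have hne : A c '' connectedComponentIn (X ∩ p ⁻¹' V) x₀ ≠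
        connectedComponentIn (X ∩ p ⁻¹' V) x₀ := hc
    rw [disjoint_left]
    intro y hy hy'
    apply hne
    rw [DOM_imageA D V c ⟨hx₀, hp⟩] at hy ⊢
    rw [connectedComponentIn_eq hy, connectedComponentIn_eq hy']

end BR
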