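import Pool.Agent.H91.BR.LOC

/-!
LCD (lifts of `C¹` maps).  `clift_c1`: let `x ∈ X`, `z = H x ∈ X`, `s` the local section of `loc_sec` at `z`.  For `y` near `x`, `H y` is near `z`, so
`H y = s (p (H y)) = s (h (p y))`: near `x` the map `H` is `s ∘ h ∘ p`, `ContMDiffAt` at `x` (`s` at `p z = h (p x)`), hence `ContDiffAt` (`contMDiffAt_iff_contDiffAt`).
`clift_deriv`: `p ∘ H = h ∘ p` near `x`; `mfderiv_comp` for both sides, `mfderiv_eq_fderiv`, `Filter.EventuallyEq.mfderiv_eq`.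
`p_deriv`: the same for `A c`: it is a lift of the identity (`Deck.fibre`, `Deck.cont`, `Deck.maps`), `mfderiv_id`; and the real derivative of the holomorphic function `A c` is the
multiplication by `deriv (A c) x` (`Deck.hol`).
-/

namespace BR

open Metric Set Filter Topology Function CV
open scoped Manifold ContDiff

variable {S : Type} [MetricSpace S] [ChartedSpace E2 S] [IsManifold (𝓡 2) ∞ S] {X : Set ℂ} {Γ : Type}
  [Group Γ] {A : Γ → ℂ → ℂ} {p : ℂ → S}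

omit [ChartedSpace E2 S] [IsManifold (𝓡 2) ∞ S] in
theorem LCD_ev (hX : IsOpen X) {h : S → S} {H : ℂ → ℂ} (hH : CLift X p h H) {x : ℂ}
    (hx : x ∈ X) : (fun y => p (H y)) =ᶠ[𝓝 x] fun y => h (p y) := by
  filter_upwards [hX.mem_nhds hx] with y hy
  exact hH.lift y hy

theorem clift_c1 (hX : IsOpen X) (hp : Smo X p) {h : S → S} (hh : ContMDiff (𝓡 2) (𝓡 2) 1 h)
    {H : ℂ → ℂ} (hH : CLift X p h H) : ContDiffOn ℝ 1 H X := by
  intro x hx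
  apply ContDiffAt.contDiffWithinAt
  obtain ⟨s, hs, hsx, hsl, hsr⟩ := loc_sec hX hp (hH.maps hx)
  have hHc : ContinuousAt H x := hH.cont.continuousAt (hX.mem_nhds hx)
  have h1 : H =ᶠ[𝓝 x] fun y => s (h (p y)) := by
    filter_upwards [hX.mem_nhds hx, hHc.eventually hsl] with y hy hy2
    rw [← hH.lift y hy, hy2]
  have hpx : ContMDiffAt 𝓘(ℝ, ℂ) (𝓡 2) 1 p x := hp.sm.contMDiffAt (hX.mem_nhds hx)
  have h2 : ContMDiffAt 𝓘(ℝ, ℂ) (𝓡 2) 1 (h ∘ p) x := (hh (p x)).comp x hpx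
  have hs' : ContMDiffAt (𝓡 2) 𝓘(ℝ, ℂ) 1 s ((h ∘ p) x) := by
    have : (h ∘ p) x = p (H x) := (hH.lift x hx).symm
    rw [this]
    exact hs
  have h3 : ContMDiffAt 𝓘(ℝ, ℂ) 𝓘(ℝ, ℂ) 1 (s ∘ (h ∘ p)) x := hs'.comp x h2
  have h4 : ContDiffAt ℝ 1 (fun y => s (h (p y))) x := h3.contDiffAt
  exact h4.congr_of_eventuallyEq h1

theorem clift_deriv (hX : IsOpen X) (hp : Smo X p) {h : S → S} (hh : ContMDiff (𝓡 2) (𝓡 2) 1 h)
    {H : ℂ → ℂ} (hH : CLift X p h H) {x : ℂ} (hx : x ∈ X) (v : ℂ) :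
    (mfderiv 𝓘(ℝ, ℂ) (𝓡 2) p (H x) (fderiv ℝ H x v) : E2) =
      mfderiv (𝓡 2) (𝓡 2) h (p x) (mfderiv 𝓘(ℝ, ℂ) (𝓡 2) p x v) := by
  have hHd : DifferentiableAt ℝ H x :=
    ((clift_c1 hX hp hh hH).contDiffAt (hX.mem_nhds hx)).differentiableAt one_ne_zero
  have hHm : MDifferentiableAt 𝓘(ℝ, ℂ) 𝓘(ℝ, ℂ) H x := hHd.mdifferentiableAt
  have hpx : MDifferentiableAt 𝓘(ℝ, ℂ) (𝓡 2) p x :=
    (hp.sm.contMDiffAt (hX.mem_nhds hx)).mdifferentiableAt one_ne_zero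
  have hpH : MDifferentiableAt 𝓘(ℝ, ℂ) (𝓡 2) p (H x) :=
    (hp.sm.contMDiffAt (hX.mem_nhds (hH.maps hx))).mdifferentiableAt one_ne_zero
  have hhp : MDifferentiableAt (𝓡 2) (𝓡 2) h (p x) := (hh (p x)).mdifferentiableAt one_ne_zero
  have e1 := mfderiv_comp x hpH hHm
  have e2 := mfderiv_comp x hhp hpx
  have e3 : mfderiv 𝓘(ℝ, ℂ) (𝓡 2) (p ∘ H) x = mfderiv 𝓘(ℝ, ℂ) (𝓡 2) (h ∘ p) x :=
    (LCD_ev hX hH hx).mfderiv_eq
  rw [e1, e2] at e3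
  have e5 := congrArg (fun L : ℂ →L[ℝ] E2 => L v) e3
  rw [mfderiv_eq_fderiv] at e5
  exact e5

theorem p_deriv (D : Deck X A p) (hp : Smo X p) (c : Γ) {x : ℂ} (hx : x ∈ X) (v : ℂ) :
    (mfderiv 𝓘(ℝ, ℂ) (𝓡 2) p (A c x) (deriv (A c) x * v : ℂ) : E2) =
      mfderiv 𝓘(ℝ, ℂ) (𝓡 2) p x v := by
  have hL : CLift X p id (A c) := ⟨D.cont c, D.maps c, fun y hy => D.fibre c hy⟩
  have h1 := clift_deriv D.opn hp contMDiff_id hL hx v
  have h2 : HasDerivAt (A c) (deriv (A c) x) x :=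
    ((D.hol c).differentiableAt (D.opn.mem_nhds hx)).hasDerivAt
  have h3 : fderiv ℝ (A c) x v = deriv (A c) x * v := by
    rw [h2.complexToReal_fderiv.fderiv]
    simp
  rw [h3] at h1
  rw [h1, mfderiv_id]
  rfl

end BR
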