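import Pool.Agent.H91.BR.RHO

/-!
RHC (continuity of the density, choice of the sign): see the header of `RHO.lean`, parts `rho_cont`, `rho_sign`, `exists_rho`.
-/

namespace BR

open Metric Set Filter Topology Function CV
open scoped Manifold ContDiff

variable {S : Type} [MetricSpace S] [ChartedSpace E2 S] [IsManifold (𝓡 2) ∞ S] {X : Set ℂ} {Γ : Type}
  [Group Γ] {A : Γ → ℂ → ℂ} {p : ℂ → S}
  {om : ∀ x : S, TangentSpace (𝓡 2) x →ₗ[ℝ] TangentSpace (𝓡 2) x →ₗ[ℝ] ℝ}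

omit [IsManifold (𝓡 2) ∞ S] in
theorem RHC_congr {c : ℂ → S} {z : ℂ} (h : c =ᶠ[𝓝 z] p) : rho om c z = rho om p z := by
  have key : ∀ s t : S, s = t → ∀ L M : ℂ →L[ℝ] E2, L = M →
      om s (L (1:ℂ)) (L Complex.I) = om t (M (1:ℂ)) (M Complex.I) := by
    intro s t hst L M hLM
    subst hst
    subst hLM
    rfl
  exact key _ _ h.eq_of_nhds _ _ (h.mfderiv_eq (I := 𝓘(ℝ, ℂ)) (I' := 𝓡 2))

omit [IsManifold (𝓡 2) ∞ S] in
/-- a `C¹` map of the plane to `X` which is the identity near `x₀` -/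
theorem RHC_cut (hX : IsOpen X) {x₀ : ℂ} (hx : x₀ ∈ X) :
    ∃ σ : ℂ → ℂ, ContDiff ℝ 1 σ ∧ (∀ z, σ z ∈ X) ∧ ∃ r : ℝ, 0 < r ∧ ∀ z ∈ ball x₀ r, σ z = z := by
  obtain ⟨R, hR, hRX⟩ := Metric.isOpen_iff.1 hX x₀ hx
  let φ : ContDiffBump x₀ := ⟨R / 2, R, by positivity, by linarith⟩
  refine ⟨fun z => x₀ + φ z • (z - x₀), ?_, ?_, R / 2, by positivity, ?_⟩
  · exact contDiff_const.add (φ.contDiff.smul (contDiff_id.sub contDiff_const))
  · intro z
    apply hRX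
    rw [mem_ball, dist_eq_norm, add_sub_cancel_left, norm_smul, Real.norm_eq_abs,
      abs_of_nonneg φ.nonneg]
    by_cases hz : dist z x₀ < R
    · rw [dist_eq_norm] at hz
      have h1 : φ z ≤ 1 := φ.le_one
      have h2 := norm_nonneg (z - x₀)
      have h3 := φ.nonneg (x := z)
      nlinarith
    · rw [φ.zero_of_le_dist (by simpa using hz), zero_mul]
      exact hR
  · intro z hz
    have h1 : φ z = 1 := φ.one_of_mem_closedBall (ball_subset_closedBall hz)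
    simp [h1]

theorem rho_cont (D : Deck X A p) (hom : DS.Surf.IsAreaForm om) (hp : Smo X p) :
    ContinuousOn (rho om p) X := by
  intro x₀ hx
  apply ContinuousAt.continuousWithinAt
  obtain ⟨σ, hσ, hσX, r, hr, hσr⟩ := RHC_cut D.opn hx
  have hc : ContMDiff 𝓘(ℝ, ℂ) (𝓡 2) 1 (p ∘ σ) := hp.sm.comp_contMDiff hσ.contMDiff hσX
  have h1 : Continuous (rho om (p ∘ σ)) := hom.cont _ hc
  refine h1.continuousAt.congr ?_
  filter_upwards [ball_mem_nhds x₀ hr] with z hz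
  refine RHC_congr ?_
  filter_upwards [isOpen_ball.mem_nhds hz] with w hw
  simp only [comp_apply, hσr w hw]

theorem RHC_sign (D : Deck X A p) (hom : DS.Surf.IsAreaForm om) (hp : Smo X p) :
    (∀ x ∈ X, 0 < rho om p x) ∨ ∀ x ∈ X, rho om p x < 0 := by
  by_contra hcon
  push Not at hcon
  obtain ⟨⟨x, hx, hx0⟩, y, hy, hy0⟩ := hcon
  obtain ⟨z, hz, hz0⟩ := D.conn.isPreconnected.intermediate_value hx hy (rho_cont D hom hp)
    ⟨hx0, hy0⟩
  exact rho_ne hom hp hz hz0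

theorem exists_rho (D : Deck X A p) (hom : DS.Surf.IsAreaForm om) (hp : Smo X p) :
    ∃ ρ : ℂ → ℝ, ContinuousOn ρ X ∧ (∀ x ∈ X, 0 < ρ x) ∧
      (∀ c, ∀ x ∈ X, ρ (A c x) * ‖deriv (A c) x‖ ^ 2 = ρ x) ∧
      ∀ (h : S → S) (H : ℂ → ℂ), ContMDiff (𝓡 2) (𝓡 2) 1 h → DS.Surf.PreservesArea om h →
        CLift X p h H → ∀ x ∈ X, ρ (H x) * (fderiv ℝ H x).det = ρ x := by
  refine ⟨fun x => |rho om p x|, (rho_cont D hom hp).abs, fun x hx => abs_pos.2 (rho_ne hom hp hx),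
    ?_, ?_⟩
  · intro c x hx
    have h1 := rho_inv D hom hp c hx
    simp only
    rw [← h1, abs_mul, abs_of_nonneg (by positivity : 0 ≤ ‖deriv (A c) x‖ ^ 2)]
  · intro h H hh ha hH x hx
    have h1 := rho_area D.opn hom hp hh ha hH hx
    have hHx := hH.maps hx
    simp only
    rcases RHC_sign D hom hp with hs | hs
    · rw [abs_of_pos (hs x hx), abs_of_pos (hs _ hHx)]
      exact h1
    · rw [abs_of_neg (hs x hx), abs_of_neg (hs _ hHx), neg_mul, h1]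

end BR
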