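import Pool.Agent.H91.BR.CVM
import Pool.Agent.H91.BR.RHC

/-!
LFT (the lift of the diffeomorphism).  Proof.  `lift_exists` gives `G` (lift of `g`, `G x₀ = y₀`) and `Gi` (lift of `gi`, `Gi y₀ = x₀`; `gi (p y₀) = gi (g (p x₀)) = p x₀`).
`Gi ∘ G` and `id` are lifts of the identity that agree at `x₀`: `lift_unique`; the same for `G ∘ Gi` at `y₀`.  `clift_c1` gives `c1`, `c1i`.
`θ`: for `c : Γ`, `p (G (A c x₀)) = g (p x₀) = p (G x₀)`, so `G (A c x₀) = A d (G x₀)` for some `d` (`fib`), and `G ∘ A c`, `A d ∘ G` are lifts of `g` that agree at `x₀`, so they agree on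
`X`; `d` is unique by freeness (`Deck.ext`): `θ c = d`.  `θ (c c') = θ c θ c'`: both describe `G ∘ A (c c')` (`mul`, `Deck.ext`).  The same construction for `Gi` gives the inverse of
`θ`: `Gi (A d y) = A (θi d) (Gi y)`; `θi (θ c) = c`, `θ (θi d) = d` by `Deck.ext`.  `MulEquiv.mk'` or an explicit structure.
`ρ` and the last four fields: `exists_rho` (area: `h = g`).  Continuity of `g`, `gi`: `ContMDiff.continuous`.
-/

namespace BR

open Metric Set Filter Topology Function CV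
open scoped Manifold ContDiff

variable {S : Type} [MetricSpace S] [ChartedSpace E2 S] [IsManifold (𝓡 2) ∞ S] {X : Set ℂ} {Γ : Type}
  [Group Γ] {A : Γ → ℂ → ℂ} {p : ℂ → S}
  {om : ∀ x : S, TangentSpace (𝓡 2) x →ₗ[ℝ] TangentSpace (𝓡 2) x →ₗ[ℝ] ℝ}

theorem LFT_comp {S : Type} [MetricSpace S] {X : Set ℂ} {p : ℂ → S} {h h' : S → S} {H H' : ℂ → ℂ}
    (h1 : CLift X p h H) (h2 : CLift X p h' H') :
    CLift X p (fun s => h (h' s)) (fun x => H (H' x)) where
  cont := h1.cont.comp h2.cont h2.maps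
  maps := h1.maps.comp h2.maps
  lift x hx := by
    show p (H (H' x)) = h (h' (p x))
    rw [h1.lift _ (h2.maps hx), h2.lift x hx]

theorem LFT_id {S : Type} [MetricSpace S] {X : Set ℂ} {p : ℂ → S} :
    CLift X p (fun s => s) (fun x => x) where
  cont := continuousOn_id
  maps := mapsTo_id X
  lift _ _ := rfl

theorem LFT_A {S : Type} [MetricSpace S] {X : Set ℂ} {Γ : Type} [Group Γ] {A : Γ → ℂ → ℂ}
    {p : ℂ → S} (D : Deck X A p) (c : Γ) : CLift X p (fun s => s) (A c) where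
  cont := D.cont c
  maps := D.maps c
  lift _ hx := D.fibre c hx

theorem LFT_equi {S : Type} [MetricSpace S] {X : Set ℂ} {Γ : Type} [Group Γ] {A : Γ → ℂ → ℂ}
    {p : ℂ → S} (D : Deck X A p) {h : S → S} {H : ℂ → ℂ} (hH : CLift X p h H) {x₀ : ℂ}
    (hx₀ : x₀ ∈ X) (c : Γ) : ∃ d : Γ, ∀ x ∈ X, H (A c x) = A d (H x) := by
  have h1 : p (H x₀) = p (H (A c x₀)) := by
    rw [hH.lift _ hx₀, hH.lift _ (D.maps c hx₀), D.fibre c hx₀]
  obtain ⟨d, hd⟩ := (D.fib _ (hH.maps hx₀) _ (hH.maps (D.maps c hx₀))).1 h1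
  refine ⟨d, ?_⟩
  have h2 : CLift X p h (fun x => H (A c x)) := LFT_comp (h' := fun s => s) hH (LFT_A D c)
  have h3 : CLift X p h (fun x => A d (H x)) := LFT_comp (h := fun s => s) (LFT_A D d) hH
  exact lift_unique D h2 h3 hx₀ hd.symm

theorem exists_lift (D : Deck X A p) (hp : Smo X p) {g gi : S → S} (hg : SSys g gi om) {x₀ y₀ : ℂ}
    (hx₀ : x₀ ∈ X) (hy₀ : y₀ ∈ X) (h0 : p y₀ = g (p x₀)) :
    ∃ (G Gi : ℂ → ℂ) (θ : Γ ≃* Γ) (ρ : ℂ → ℝ), Lift X A p g gi G Gi θ ρ ∧ G x₀ = y₀ := by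
  have cg : Continuous g := hg.cf.continuous
  have cgi : Continuous gi := hg.cfi.continuous
  obtain ⟨G, hG, hG0⟩ := lift_exists D cg hx₀ hy₀ h0
  have h0' : p x₀ = gi (p y₀) := by rw [h0, hg.fif]
  obtain ⟨Gi, hGi, hGi0⟩ := lift_exists D cgi hy₀ hx₀ h0'
  have hGiG : ∀ x ∈ X, Gi (G x) = x := by
    have h1 : CLift X p (fun s => s) (fun x => Gi (G x)) := by
      have h2 := LFT_comp hGi hG
      simp only [hg.fif] at h2
      exact h2
    exact lift_unique D h1 LFT_id hx₀ (by show Gi (G x₀) = x₀; rw [hG0, hGi0])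
  have hGGi : ∀ x ∈ X, G (Gi x) = x := by
    have h1 : CLift X p (fun s => s) (fun x => G (Gi x)) := by
      have h2 := LFT_comp hG hGi
      simp only [hg.ffi] at h2
      exact h2
    exact lift_unique D h1 LFT_id hy₀ (by show G (Gi y₀) = y₀; rw [hGi0, hG0])
  choose θ hθ using fun c => LFT_equi D hG hx₀ c
  choose θi hθi using fun c => LFT_equi D hGi hy₀ c
  have hGx : G x₀ ∈ X := hG.maps hx₀
  have hGiy : Gi y₀ ∈ X := hGi.maps hy₀
  have e1 : ∀ c, θi (θ c) = c := by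
    intro c
    refine D.ext hx₀ ?_
    have h1 := hθi (θ c) (G x₀) hGx
    rw [hGiG x₀ hx₀] at h1
    rw [← h1, ← hθ c x₀ hx₀, hGiG _ (D.maps c hx₀)]
  have e2 : ∀ d, θ (θi d) = d := by
    intro d
    refine D.ext hy₀ ?_
    have h1 := hθ (θi d) (Gi y₀) hGiy
    rw [hGGi y₀ hy₀] at h1
    rw [← h1, ← hθi d y₀ hy₀, hGGi _ (D.maps d hy₀)]
  have e3 : ∀ c c', θ (c * c') = θ c * θ c' := by
    intro c c'
    refine D.ext hGx ?_
    rw [← hθ (c * c') x₀ hx₀, D.mul c c' x₀ hx₀, hθ c _ (D.maps c' hx₀), hθ c' x₀ hx₀,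
      D.mul _ _ _ hGx]
  let Θ : Γ ≃* Γ :=
    { toFun := θ
      invFun := θi
      left_inv := e1
      right_inv := e2
      map_mul' := e3 }
  obtain ⟨ρ, ρc, ρpos, ρinv, ρarea⟩ := exists_rho D hg.area hp
  refine ⟨G, Gi, Θ, ρ, ?_, hG0⟩
  exact
    { cg := cg
      cgi := cgi
      ggi := hg.ffi
      gig := hg.fif
      mG := hG.maps
      mGi := hGi.maps
      GiG := hGiG
      GGi := hGGi
      c1 := clift_c1 D.opn hp hg.cf hG
      c1i := clift_c1 D.opn hp hg.cfi hGi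
      equi := hθ
      lift := hG.lift
      ρc := ρc
      ρpos := ρpos
      ρinv := ρinv
      area := ρarea g G hg.cf hg.pres hG }

end BR
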