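import Pool.Agent.H91.BR.Base

/-!
LOC (local sections of a local diffeomorphism into a manifold).
Proof of `loc_sec`.  Let `c = extChartAt (𝓡 2) (p x)` (a homeomorphism from a neighbourhood of `p x` onto an open subset of `E2`; the model is
boundaryless) and `F = c ∘ p`, defined near `x`.  `F` is `C¹` at `x` (`contMDiffAt_iff`, `ContMDiffOn.contMDiffAt hp.sm (hX.mem_nhds hx)`; the source
is a vector space, so `writtenInExtChartAt` is `F` up to definitional equality/`simp`), with differential `D c (p x) ∘ mfderiv p x`, invertible: by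
`mfderiv` of `p` at `x` is by definition the `fderivWithin` of the written map on `range = univ`, so `fderiv ℝ F x = mfderiv p x` is bijective.  The inverse function
theorem (`ContDiffAt.toOpenPartialHomeomorph`, `ContDiffAt.to_localInverse`) gives `F⁻¹`, `C¹` at `F x`; `s = F⁻¹ ∘ c` is `ContMDiffAt` at `p x`
(`contMDiffAt_extChartAt`), `s (p y) = y` for `y` near `x`, and `p (s t) = t` for `t` near `p x` (`c (p (s t)) = F (F⁻¹ (c t)) = c t`, `c` is injective
on its source, `p (s t)` is in the source by continuity).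
`loc_inj`: from the third clause.  `loc_open`: `p '' O` contains a neighbourhood of `p x` for `x ∈ O`: `t` near `p x` is `p (s t)` with `s t ∈ O` (`s` is continuous at
`p x`, `s (p x) = x`).
-/

namespace BR

open Metric Set Filter Topology Function CV
open scoped Manifold ContDiff

variable {S : Type} [MetricSpace S] [ChartedSpace E2 S] [IsManifold (𝓡 2) ∞ S] {X : Set ℂ} {p : ℂ → S}

theorem loc_sec (hX : IsOpen X) (hp : Smo X p) {x : ℂ} (hx : x ∈ X) :
    ∃ s : S → ℂ, ContMDiffAt (𝓡 2) 𝓘(ℝ, ℂ) 1 s (p x) ∧ s (p x) = x ∧ (∀ᶠ y in 𝓝 x, s (p y) = y) ∧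
      ∀ᶠ t in 𝓝 (p x), p (s t) = t := by
  have hpx : ContMDiffAt 𝓘(ℝ, ℂ) (𝓡 2) 1 p x := hp.sm.contMDiffAt (hX.mem_nhds hx)
  have hc : ContMDiffAt (𝓡 2) 𝓘(ℝ, E2) 1 (extChartAt (𝓡 2) (p x)) (p x) :=
    contMDiffAt_extChartAt
  set F : ℂ → E2 := fun y => extChartAt (𝓡 2) (p x) (p y) with hF
  have hFc : ContDiffAt ℝ 1 F x := by
    rw [← contMDiffAt_iff_contDiffAt]
    exact hc.comp x hpx
  have hmd : MDifferentiableAt 𝓘(ℝ, ℂ) (𝓡 2) p x := hpx.mdifferentiableAt (by norm_num)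
  have hder : ∀ v : ℂ, (fderiv ℝ F x) v = (mfderiv 𝓘(ℝ, ℂ) (𝓡 2) p x) v := by
    intro v
    rw [hmd.mfderiv]
    simp only [mfld_simps]
    rw [fderivWithin_univ]
    rfl
  have hbij : Bijective (fderiv ℝ F x) := by
    have h1 : (fun v => (fderiv ℝ F x) v) = fun v => (mfderiv 𝓘(ℝ, ℂ) (𝓡 2) p x) v :=
      funext hder
    have h2 := hp.bij x hx
    constructor
    · intro a b hab
      exact h2.1 (by rw [← hder, ← hder]; exact hab)
    · intro w
      obtain ⟨v, hv⟩ := h2.2 w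
      exact ⟨v, by rw [hder]; exact hv⟩
  let E : ℂ ≃L[ℝ] E2 :=
    (LinearEquiv.ofBijective (fderiv ℝ F x).toLinearMap hbij).toContinuousLinearEquiv
  have hEF : (E : ℂ →L[ℝ] E2) = fderiv ℝ F x := by
    ext v; rfl
  have hFd : HasFDerivAt F (E : ℂ →L[ℝ] E2) x := by
    rw [hEF]
    exact (hFc.differentiableAt (by norm_num)).hasFDerivAt
  have hst : HasStrictFDerivAt F (E : ℂ →L[ℝ] E2) x :=
    hFc.hasStrictFDerivAt' hFd (by norm_num)
  set G : E2 → ℂ := hst.localInverse F E x with hG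
  have hGF : G (F x) = x := hst.localInverse_apply_image
  have hGc : ContDiffAt ℝ 1 G (F x) := hFc.to_localInverse hFd (by norm_num)
  have hl : ∀ᶠ y in 𝓝 x, G (F y) = y := hst.eventually_left_inverse
  have hr : ∀ᶠ y in 𝓝 (F x), F (G y) = y := hst.eventually_right_inverse
  have hs : ContMDiffAt (𝓡 2) 𝓘(ℝ, ℂ) 1 (fun t => G (extChartAt (𝓡 2) (p x) t)) (p x) :=
    hGc.contMDiffAt.comp (p x) hc
  refine ⟨fun t => G (extChartAt (𝓡 2) (p x) t), hs, hGF, hl, ?_⟩
  have hcc : ContinuousAt (extChartAt (𝓡 2) (p x)) (p x) := hc.continuousAt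
  have h1 : ∀ᶠ t in 𝓝 (p x), F (G (extChartAt (𝓡 2) (p x) t)) = extChartAt (𝓡 2) (p x) t :=
    hcc.eventually hr
  have h2 : ∀ᶠ t in 𝓝 (p x), t ∈ (extChartAt (𝓡 2) (p x)).source :=
    extChartAt_source_mem_nhds (p x)
  have hpc : ContinuousAt p x := hpx.continuousAt
  have h3 : ContinuousAt (fun t => p (G (extChartAt (𝓡 2) (p x) t))) (p x) := by
    refine ContinuousAt.comp (f := fun t => G (extChartAt (𝓡 2) (p x) t)) ?_ hs.continuousAt
    have : G (extChartAt (𝓡 2) (p x) (p x)) = x := hGF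
    rw [this]
    exact hpc
  have h4 : ∀ᶠ t in 𝓝 (p x),
      p (G (extChartAt (𝓡 2) (p x) t)) ∈ (extChartAt (𝓡 2) (p x)).source := by
    refine h3.eventually_mem ?_
    have : G (extChartAt (𝓡 2) (p x) (p x)) = x := hGF
    rw [this]
    exact extChartAt_source_mem_nhds (p x)
  filter_upwards [h1, h2, h4] with t ht1 ht2 ht3
  exact (extChartAt (𝓡 2) (p x)).injOn ht3 ht2 ht1

theorem loc_inj (hX : IsOpen X) (hp : Smo X p) {x : ℂ} (hx : x ∈ X) : ∃ W ∈ 𝓝 x, InjOn p W := by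
  obtain ⟨s, -, -, h, -⟩ := loc_sec hX hp hx
  refine ⟨{y | s (p y) = y}, h, fun a ha b hb hab => ?_⟩
  have ha : s (p a) = a := ha
  have hb : s (p b) = b := hb
  rw [← ha, ← hb, hab]

theorem loc_open (hX : IsOpen X) (hp : Smo X p) {O : Set ℂ} (hO : O ⊆ X) (hOo : IsOpen O) :
    IsOpen (p '' O) := by
  rw [isOpen_iff_mem_nhds]
  rintro _ ⟨x, hx, rfl⟩
  obtain ⟨s, hs, hsx, -, h⟩ := loc_sec hX hp (hO hx)
  have h1 : ∀ᶠ t in 𝓝 (p x), s t ∈ O :=
    hs.continuousAt.eventually_mem (by rw [hsx]; exact hOo.mem_nhds hx)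
  filter_upwards [h, h1] with t ht ht1
  exact ⟨s t, ht1, ht⟩

end BR
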