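import Pool.Agent.H91.BR.LFT
import Pool.Agent.H91.BR.STB

/-!
PER (components of an invariant open set are periodic).  Proof.
1. `V = connectedComponentIn U x`; `f^[n] '' V = connectedComponentIn U (f^[n] x)` (copy `auxTA_iter` of `Pool/Agent/H36/DS/TA.lean`; `S` is locally connected:
`ChartedSpace.locallyConnectedSpace E2 S`).  Suppose that no `q > 0` works.  Then the sets `f^[n] '' V`, `n ≥ 0`, are pairwise disjoint (otherwise `f^[n] '' V = f^[m] '' V`, `n < m`, and `f^[m - n] '' V = V` as `f` is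
injective; end of the proof of `component_periodic`).
2. `x = p x₀` (`D.ps`), `f (p x₀) = p y₀`, `exists_lift` for `g = f`: `L : Lift X A p f fi G Gi θ ρ`.  Let `m` be the measure `∫⁻ x in B, ENNReal.ofReal (ρ x)` on subsets of `X`.  For measurable `B ⊆ X`
`m (G '' B) = m B` and `m (A c '' B) = m B`: `lintegral_image_eq_lintegral_abs_det_fderiv_mul` (`G` injective and `C¹` on the open set `X`, `L.area`: the determinant is positive; `A c`: the real derivative is the
multiplication by `deriv (A c) x`, with determinant `‖deriv (A c) x‖ ^ 2`, `L.ρinv`).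
3. `loc_inj` and continuity of `p` give a ball `B₀` about `x₀`, `B₀ ⊆ X`, `p '' B₀ ⊆ V`, `p` injective on `B₀`; `δ = m B₀ > 0`.  `B_n = G^[n] '' B₀`: measurable (open: `G` is a homeomorphism of `X`), `m B_n = δ`, `p` is injective
on `B_n` (`p (G^[n] y) = f^[n] (p y)`), `p '' B_n ⊆ f^[n] '' V`.
4. `C` compact, `C ⊆ X`, from `D.coc`; `m C < ⊤` (`ρ` is bounded on `C`).  The sets `E n c = (A c '' B_n) ∩ C`, `(n, c) ∈ ℕ × Γ`, are pairwise disjoint: if `A c y = A d z`, `y ∈ B_n`, `z ∈ B_k`, then `p y = p z`, so `n = k`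
(disjoint `f^[n] '' V`), `y = z` (injectivity on `B_n`), `c = d` (`Deck.ext`).  `Γ` is countable (`D.proper` for an exhaustion of `X` by compact sets, or: the orbit of `x₀` is a discrete
subset).  `∑_c m (E n c) = ∑_c m (B_n ∩ A c⁻¹ '' C) ≥ m B_n = δ` (`m` invariant; the sets `A c⁻¹ '' C` cover `X`).  So `m C ≥ ∑_(n,c) m (E n c) ≥ ∑_n δ = ⊤`: contradiction.
-/

namespace BR

open Metric Set Filter Topology Function CV
open scoped Manifold ContDiff

variable {S : Type} [MetricSpace S] [ChartedSpace E2 S] [IsManifold (𝓡 2) ∞ S] [CompactSpace S]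
  {X : Set ℂ} {Γ : Type} [Group Γ] {A : Γ → ℂ → ℂ} {p : ℂ → S}
  {om : ∀ x : S, TangentSpace (𝓡 2) x →ₗ[ℝ] TangentSpace (𝓡 2) x →ₗ[ℝ] ℝ}

theorem PER_iter {X : Type*} [TopologicalSpace X] {f fi : X → X} (hf : Continuous f)
    (hfi : Continuous fi) (hffi : ∀ x, f (fi x) = x) (hfif : ∀ x, fi (f x) = x) {U : Set X}
    (hfU : f '' U = U) {x : X} (hx : x ∈ U) (n : ℕ) :
    f^[n] x ∈ U ∧ f^[n] '' connectedComponentIn U x = connectedComponentIn U (f^[n] x) := by
  let h : X ≃ₜ X := { toFun := f, invFun := fi, left_inv := hfif, right_inv := hffi,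
                      continuous_toFun := hf, continuous_invFun := hfi }
  induction n with
  | zero => simpa using hx
  | succ n ih =>
    obtain ⟨ih1, ih2⟩ := ih
    constructor
    · rw [iterate_succ', comp_apply, ← hfU]
      exact mem_image_of_mem f ih1
    · rw [iterate_succ', image_comp, ih2, comp_apply]
      have := h.image_connectedComponentIn ih1
      change f '' connectedComponentIn U (f^[n] x) = connectedComponentIn (f '' U) (f (f^[n] x))
        at this
      rw [this, hfU]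

/-- either some component is periodic or all images are disjoint -/
theorem PER_disj {X : Type*} [TopologicalSpace X] {f fi : X → X} (hf : Continuous f)
    (hfi : Continuous fi) (hffi : ∀ x, f (fi x) = x) (hfif : ∀ x, fi (f x) = x) {U : Set X}
    (hfU : f '' U = U) {x : X} (hx : x ∈ U)
    (hno : ¬ ∃ q, 0 < q ∧ f^[q] '' connectedComponentIn U x = connectedComponentIn U x)
    {n m : ℕ} (hnm : n ≠ m) {z : X} (hz1 : z ∈ f^[n] '' connectedComponentIn U x)
    (hz2 : z ∈ f^[m] '' connectedComponentIn U x) : False := by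
  have hit := PER_iter hf hfi hffi hfif hfU hx
  have hinj : Injective f := fun a b hab => by rw [← hfif a, ← hfif b, hab]
  have key : ∀ n m : ℕ, n < m → z ∈ f^[n] '' connectedComponentIn U x →
      z ∈ f^[m] '' connectedComponentIn U x → False := by
    intro n m hlt h1 h2
    apply hno
    refine ⟨m - n, by omega, ?_⟩
    have h3 : f^[n] '' connectedComponentIn U x = f^[m] '' connectedComponentIn U x := by
      rw [(hit n).2] at h1 ⊢
      rw [(hit m).2] at h2 ⊢
      rw [connectedComponentIn_eq h1, connectedComponentIn_eq h2]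
    have h4 : f^[n] '' (f^[m - n] '' connectedComponentIn U x) =
        f^[n] '' connectedComponentIn U x := by
      rw [← image_comp, ← iterate_add, h3]
      congr 2
      omega
    exact (hinj.iterate n).image_injective h4
  rcases lt_or_gt_of_ne hnm with h | h
  · exact key n m h hz1 hz2
  · exact key m n h hz2 hz1

theorem PER_det (c : ℂ) :
    ((ContinuousLinearMap.toSpanSingleton ℂ c).restrictScalars ℝ : ℂ →L[ℝ] ℂ).det = ‖c‖ ^ 2 := by
  have h1 : (((ContinuousLinearMap.toSpanSingleton ℂ c).restrictScalars ℝ : ℂ →L[ℝ] ℂ) :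
      ℂ →ₗ[ℝ] ℂ) = LinearMap.mulLeft ℝ c := by
    ext x
    simp [mul_comm]
  rw [ContinuousLinearMap.det, h1]
  have h2 := Algebra.norm_complex_apply c
  rw [Algebra.norm_apply] at h2
  rw [Complex.sq_norm, ← h2]
  rfl

/-- the measure with density `ρ` -/
noncomputable def PER_m (ρ : ℂ → ℝ) : MeasureTheory.Measure ℂ :=
  MeasureTheory.volume.withDensity (fun x => ENNReal.ofReal (ρ x))

open MeasureTheory in
theorem PER_inv {ρ : ℂ → ℝ} {H : ℂ → ℂ} {H' : ℂ → ℂ →L[ℝ] ℂ} {B : Set ℂ} (hB : MeasurableSet B)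
    (hH : ∀ x ∈ B, HasFDerivWithinAt H (H' x) B x) (hi : InjOn H B) (hρ : ∀ x ∈ B, 0 < ρ x)
    (hρ' : ∀ x ∈ B, 0 < ρ (H x)) (hd : ∀ x ∈ B, ρ (H x) * (H' x).det = ρ x) :
    PER_m ρ (H '' B) = PER_m ρ B := by
  have hm : MeasurableSet (H '' B) := measurable_image_of_fderivWithin hB hH hi
  unfold PER_m
  rw [withDensity_apply _ hB, withDensity_apply _ hm,
    lintegral_image_eq_lintegral_abs_det_fderiv_mul volume hB hH hi]
  apply setLIntegral_congr_fun hB
  intro x hx
  have h1 : 0 < (H' x).det := by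
    have h2 := hd x hx
    have h3 := hρ x hx
    rw [← h2] at h3
    exact (mul_pos_iff_of_pos_left (hρ' x hx)).1 h3
  show ENNReal.ofReal |(H' x).det| * ENNReal.ofReal (ρ (H x)) = ENNReal.ofReal (ρ x)
  rw [← ENNReal.ofReal_mul (abs_nonneg _), abs_of_pos h1, mul_comm, hd x hx]

open MeasureTheory in
theorem PER_finite {ρ : ℂ → ℝ} {C : Set ℂ} (hC : IsCompact C) (hρ : ContinuousOn ρ C) :
    PER_m ρ C < ⊤ := by
  obtain ⟨K, hK⟩ := hC.exists_bound_of_continuousOn hρ
  unfold PER_m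
  rw [withDensity_apply _ hC.measurableSet]
  calc ∫⁻ x in C, ENNReal.ofReal (ρ x) ≤ ∫⁻ _ in C, ENNReal.ofReal K := by
        apply setLIntegral_mono' hC.measurableSet
        intro x hx
        exact ENNReal.ofReal_le_ofReal ((le_abs_self _).trans (hK x hx))
    _ = ENNReal.ofReal K * volume C := by rw [setLIntegral_const]
    _ < ⊤ := ENNReal.mul_lt_top ENNReal.ofReal_lt_top hC.measure_lt_top

open MeasureTheory in
theorem PER_pos {ρ : ℂ → ℝ} {x : ℂ} {r a : ℝ} (hr : 0 < r) (ha : 0 < a)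
    (h : ∀ y ∈ ball x r, a ≤ ρ y) : 0 < PER_m ρ (ball x r) := by
  unfold PER_m
  rw [withDensity_apply _ isOpen_ball.measurableSet]
  calc (0 : ENNReal) < ENNReal.ofReal a * volume (ball x r) :=
        ENNReal.mul_pos (by simpa using ha) (measure_ball_pos _ _ hr).ne'
    _ = ∫⁻ _ in ball x r, ENNReal.ofReal a := by rw [setLIntegral_const]
    _ ≤ ∫⁻ y in ball x r, ENNReal.ofReal (ρ y) := by
        apply setLIntegral_mono' isOpen_ball.measurableSet
        intro y hy
        exact ENNReal.ofReal_le_ofReal (h y hy)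

omit [ChartedSpace E2 S] [IsManifold (𝓡 2) ∞ S] [CompactSpace S] in
theorem PER_open (D : Deck X A p) (c : Γ) {B : Set ℂ} (hB : B ⊆ X) (ho : IsOpen B) :
    IsOpen (A c '' B) := by
  have h1 : A c '' B = X ∩ (A c⁻¹) ⁻¹' B := by
    ext y
    constructor
    · rintro ⟨x, hx, rfl⟩
      refine ⟨D.maps c (hB hx), ?_⟩
      rw [mem_preimage, D.inv_left c (hB hx)]
      exact hx
    · rintro ⟨h1, h2⟩
      exact ⟨_, h2, D.inv_right c h1⟩
  rw [h1]
  exact (D.cont c⁻¹).isOpen_inter_preimage D.opn ho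

omit [ChartedSpace E2 S] [IsManifold (𝓡 2) ∞ S] [CompactSpace S] in
theorem PER_countable (D : Deck X A p) {x : ℂ} (hx : x ∈ X) : Countable Γ := by
  obtain ⟨r, hr, hrX, hd⟩ := D.loc hx
  have h1 : (univ : Set Γ).Countable := by
    refine Set.PairwiseDisjoint.countable_of_isOpen (s := fun c : Γ => A c '' ball x r) ?_ ?_ ?_
    · intro a _ b _ hab
      show Disjoint (A a '' ball x r) (A b '' ball x r)
      rw [Set.disjoint_left]
      rintro y ⟨u, hu, rfl⟩ ⟨v, hv, hvy⟩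
      have h2 : b⁻¹ * a ≠ 1 := fun h => hab (inv_mul_eq_one.1 h).symm
      have h3 := Set.disjoint_left.1 (hd _ h2)
      refine h3 (?_ : v ∈ _) hv
      refine ⟨u, hu, ?_⟩
      rw [D.mul b⁻¹ a u (hrX hu), ← hvy, D.inv_left b (hrX hv)]
    · intro c _
      exact PER_open D c hrX isOpen_ball
    · intro c _
      exact ⟨_, mem_image_of_mem _ (mem_ball_self hr)⟩
  exact countable_univ_iff.1 h1

open MeasureTheory in
omit [ChartedSpace E2 S] [IsManifold (𝓡 2) ∞ S] [CompactSpace S] in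
theorem PER_A (D : Deck X A p) {ρ : ℂ → ℝ} (ρpos : ∀ x ∈ X, 0 < ρ x)
    (ρinv : ∀ c, ∀ x ∈ X, ρ (A c x) * ‖deriv (A c) x‖ ^ 2 = ρ x) (c : Γ) {B : Set ℂ}
    (hB : MeasurableSet B) (hBX : B ⊆ X) : PER_m ρ (A c '' B) = PER_m ρ B := by
  refine PER_inv (H' := fun x => (ContinuousLinearMap.toSpanSingleton ℂ
    (deriv (A c) x)).restrictScalars ℝ) hB ?_ ((D.inj c).mono hBX) (fun x hx => ρpos x (hBX hx))
    (fun x hx => ρpos _ (D.maps c (hBX hx))) ?_
  · intro x hx
    have h1 : HasDerivAt (A c) (deriv (A c) x) x :=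
      ((D.hol c).differentiableAt (D.opn.mem_nhds (hBX hx))).hasDerivAt
    exact (h1.hasFDerivAt.restrictScalars ℝ).hasFDerivWithinAt
  · intro x hx
    rw [PER_det]
    exact ρinv c x (hBX hx)

open MeasureTheory in
omit [ChartedSpace E2 S] [IsManifold (𝓡 2) ∞ S] [CompactSpace S] in
theorem PER_G (D : Deck X A p) {g gi : S → S} {G Gi : ℂ → ℂ} {θ : Γ ≃* Γ} {ρ : ℂ → ℝ}
    (L : Lift X A p g gi G Gi θ ρ) {B : Set ℂ} (hB : MeasurableSet B) (hBX : B ⊆ X) :
    PER_m ρ (G '' B) = PER_m ρ B := by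
  have hinj : InjOn G X := by
    intro x hx y hy h
    rw [← L.GiG x hx, h, L.GiG y hy]
  refine PER_inv (H' := fun x => fderiv ℝ G x) hB ?_ (hinj.mono hBX)
    (fun x hx => L.ρpos x (hBX hx)) (fun x hx => L.ρpos _ (L.mG (hBX hx)))
    (fun x hx => L.area x (hBX hx))
  intro x hx
  have h1 : DifferentiableAt ℝ G x :=
    (L.c1.contDiffAt (D.opn.mem_nhds (hBX hx))).differentiableAt (by norm_num)
  exact h1.hasFDerivAt.hasFDerivWithinAt

open MeasureTheory in
omit [ChartedSpace E2 S] [IsManifold (𝓡 2) ∞ S] [CompactSpace S] in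
theorem PER_Bn (D : Deck X A p) {g gi : S → S} {G Gi : ℂ → ℂ} {θ : Γ ≃* Γ} {ρ : ℂ → ℝ}
    (L : Lift X A p g gi G Gi θ ρ) {B : Set ℂ} (hB : IsOpen B) (hBX : B ⊆ X) (n : ℕ) :
    IsOpen (G^[n] '' B) ∧ G^[n] '' B ⊆ X ∧ PER_m ρ (G^[n] '' B) = PER_m ρ B := by
  have hop : ∀ n, IsOpen (G^[n] '' B) ∧ G^[n] '' B ⊆ X := by
    intro n
    obtain ⟨i1, i2, i3, i4, i5, i6, -, -⟩ := L.iter n
    refine ⟨?_, ?_⟩
    · have h1 : G^[n] '' B = X ∩ (Gi^[n]) ⁻¹' B := by
        ext y
        constructor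
        · rintro ⟨x, hx, rfl⟩
          refine ⟨i1 (hBX hx), ?_⟩
          rw [mem_preimage, i3 x (hBX hx)]
          exact hx
        · rintro ⟨h1, h2⟩
          exact ⟨_, h2, i4 y h1⟩
      rw [h1]
      exact i6.continuousOn.isOpen_inter_preimage D.opn hB
    · rintro _ ⟨x, hx, rfl⟩
      exact i1 (hBX hx)
  refine ⟨(hop n).1, (hop n).2, ?_⟩
  induction n with
  | zero => simp
  | succ n ih =>
    rw [iterate_succ', image_comp, PER_G D L (hop n).1.measurableSet (hop n).2, ih]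

theorem comp_periodic (D : Deck X A p) (hp : Smo X p) {f fi : S → S} (hS : SSys f fi om) {U : Set S}
    (hU : IsOpen U) (hfU : f '' U = U) {x : S} (hx : x ∈ U) :
    ∃ q, 0 < q ∧ f^[q] '' connectedComponentIn U x = connectedComponentIn U x := by
  by_contra hno
  have hf : Continuous f := hS.cf.continuous
  have hfi : Continuous fi := hS.cfi.continuous
  haveI : LocallyConnectedSpace S := ChartedSpace.locallyConnectedSpace E2 S
  have hdis := fun {n m : ℕ} (hnm : n ≠ m) {z : S} =>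
    PER_disj hf hfi hS.ffi hS.fif hfU hx hno hnm (z := z)
  set V := connectedComponentIn U x with hV
  have hVo : IsOpen V := hU.connectedComponentIn
  have hinjf : Injective f := fun a b hab => by rw [← hS.fif a, ← hS.fif b, hab]
  obtain ⟨x₀, hx₀, hpx⟩ := D.ps x
  obtain ⟨y₀, hy₀, hpy⟩ := D.ps (f (p x₀))
  obtain ⟨G, Gi, θ, ρ, L, -⟩ := exists_lift D hp hS hx₀ hy₀ hpy
  -- the ball
  obtain ⟨W, hW, hWi⟩ := loc_inj D.opn hp hx₀
  have hXn : X ∈ 𝓝 x₀ := D.opn.mem_nhds hx₀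
  have hVn : p ⁻¹' V ∈ 𝓝 x₀ := by
    refine (D.pc.continuousAt hXn).preimage_mem_nhds (hVo.mem_nhds ?_)
    rw [hpx]
    exact mem_connectedComponentIn hx
  have hρn : {y | ρ x₀ / 2 ≤ ρ y} ∈ 𝓝 x₀ := by
    have h1 : ρ x₀ / 2 < ρ x₀ := half_lt_self (L.ρpos x₀ hx₀)
    filter_upwards [(L.ρc.continuousAt hXn).preimage_mem_nhds (Ioi_mem_nhds h1)] with y hy
    exact le_of_lt hy
  obtain ⟨r, hr, hball⟩ := Metric.mem_nhds_iff.1
    (Filter.inter_mem (Filter.inter_mem hW hXn) (Filter.inter_mem hVn hρn))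
  have hBX : ball x₀ r ⊆ X := fun y hy => (hball hy).1.2
  have hBi : InjOn p (ball x₀ r) := hWi.mono fun y hy => (hball hy).1.1
  have hBV : ∀ y ∈ ball x₀ r, p y ∈ V := fun y hy => (hball hy).2.1
  have hδ : 0 < PER_m ρ (ball x₀ r) :=
    PER_pos hr (half_pos (L.ρpos x₀ hx₀)) fun y hy => (hball hy).2.2
  obtain ⟨C, hCX, hC, hCc⟩ := D.coc
  have hCfin : PER_m ρ C < ⊤ := PER_finite hC (L.ρc.mono hCX)
  haveI : Countable Γ := PER_countable D hx₀
  set Bn : ℕ → Set ℂ := fun n => G^[n] '' ball x₀ r with hBn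
  have hBn' := fun n => PER_Bn D L isOpen_ball hBX n
  set E : ℕ × Γ → Set ℂ := fun i => (A i.2 '' Bn i.1) ∩ C with hE
  have hEm : ∀ i, MeasurableSet (E i) := fun i =>
    (PER_open D i.2 (hBn' i.1).2.1 (hBn' i.1).1).measurableSet.inter hC.measurableSet
  have hEX : ∀ i, E i ⊆ X := fun i y hy => hCX hy.2
  have hEd : Pairwise (Disjoint on E) := by
    rintro ⟨n, c⟩ ⟨k, d⟩ hne
    show Disjoint (E (n, c)) (E (k, d))
    rw [Set.disjoint_left]
    rintro w ⟨⟨y, ⟨a, ha, rfl⟩, rfl⟩, -⟩ ⟨⟨z, ⟨b, hb, rfl⟩, hw⟩, -⟩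
    obtain ⟨n1, -, -, -, -, -, -, n8⟩ := L.iter n
    obtain ⟨k1, -, -, -, -, -, -, k8⟩ := L.iter k
    have hw' : A d (G^[k] b) = A c (G^[n] a) := hw
    have e1 : p (G^[n] a) = p (G^[k] b) := by
      rw [← D.fibre c (n1 (hBX ha)), ← hw', D.fibre d (k1 (hBX hb))]
    have e2 : f^[n] (p a) = f^[k] (p b) := by
      rw [← n8 a (hBX ha), ← k8 b (hBX hb)]
      exact e1
    have hnk : n = k := by
      by_contra hnk
      exact hdis hnk ⟨p a, hBV a ha, rfl⟩ ⟨p b, hBV b hb, e2.symm⟩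
    subst hnk
    have e3 : a = b := hBi ha hb ((hinjf.iterate n) e2)
    subst e3
    have e4 : d = c := D.ext (n1 (hBX ha)) hw'
    exact hne (by rw [e4])
  have hsum : ∀ n, PER_m ρ (ball x₀ r) ≤ ∑' c : Γ, PER_m ρ (E (n, c)) := by
    intro n
    rw [← (hBn' n).2.2]
    have hcov : G^[n] '' ball x₀ r ⊆ ⋃ c : Γ, A c⁻¹ '' E (n, c) := by
      intro y hy
      have hyX : y ∈ X := (hBn' n).2.1 hy
      obtain ⟨c, hc⟩ := hCc y hyX
      rw [mem_iUnion]
      exact ⟨c, A c y, ⟨⟨y, hy, rfl⟩, hc⟩, D.inv_left c hyX⟩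
    calc PER_m ρ (G^[n] '' ball x₀ r) ≤ PER_m ρ (⋃ c : Γ, A c⁻¹ '' E (n, c)) :=
          MeasureTheory.measure_mono hcov
      _ ≤ ∑' c : Γ, PER_m ρ (A c⁻¹ '' E (n, c)) := MeasureTheory.measure_iUnion_le _
      _ = ∑' c : Γ, PER_m ρ (E (n, c)) := by
          congr 1
          funext c
          exact PER_A D L.ρpos L.ρinv c⁻¹ (hEm _) (hEX _)
  have htot : ∑' i : ℕ × Γ, PER_m ρ (E i) ≤ PER_m ρ C := by
    rw [← MeasureTheory.measure_iUnion hEd hEm]
    exact MeasureTheory.measure_mono (iUnion_subset fun i => inter_subset_right)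
  rw [ENNReal.tsum_prod'] at htot
  have h1 : ∑' _ : ℕ, PER_m ρ (ball x₀ r) ≤ PER_m ρ C :=
    (ENNReal.tsum_le_tsum hsum).trans htot
  rw [ENNReal.tsum_const_eq_top_of_ne_zero hδ.ne'] at h1
  exact absurd hCfin (not_lt.2 h1)

end BR
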