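import Pool.Agent.H91.BR.LCD

/-!
RHO (the density of the area form).
`rho_lin`: bilinear alternating form: `om (p x) (D v) (D w) = (v.re * w.im - v.im * w.re) * rho`, `v = v.re • 1 + v.im • I`, `map_add`, `map_smul`, `alt` (so
`om u v = - om v u`: expand `om (u + v) (u + v) = 0`).
`rho_ne`: `om (p x) ≠ 0` (`ne`) and `D = mfderiv p x` is onto (`hp.bij`), `rho_lin`.
`rho_cont`: for `X = univ` directly from `IsAreaForm.cont` (`p` is `C¹` on `ℂ`).  For `X = ball 0 1`: let `σ z = z / √(1 + ‖z‖²)`, smooth from `ℂ` into the ball with inverse `w ↦ w / √(1 - ‖w‖²)`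
(continuous on the ball), and differential of positive determinant (or just: `rho (σ z) * det (D σ z) = om (p (σ z)) (D (p ∘ σ) 1) (D (p ∘ σ) I)` is continuous in `z` by `cont`, `det (D σ z)`
is continuous and nowhere zero since `σ` has the smooth inverse); so `rho ∘ σ` is continuous and `rho = (rho ∘ σ) ∘ σ⁻¹` is continuous on the ball.  (General statement to prove first: if
`σ : ℂ → ℂ` is `C¹` into `X` with `det (fderiv ℝ σ z) ≠ 0` then `rho ∘ σ` is continuous, by `rho_lin` and the chain rule `mfderiv_comp`, `mfderiv_eq_fderiv`.)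
`rho_sign`: `X` is connected (`Deck.conn`) and `rho` is continuous and nowhere zero on `X` (intermediate values: `IsPreconnected.intermediate_value`).
`rho_inv`: `p_deriv` with `a = deriv (A c) x`: `rho x = om (p (A c x)) (D a) (D (a * I)) = ‖a‖² rho (A c x)` (`rho_lin`: `a.re * (a I).im - a.im * (a I).re = ‖a‖²`; `p (A c x) = p x`: `Deck.fibre`;
beware of the dependent type of `om`: `have : p (A c x) = p x`, use a general statement `∀ s t, s = t → om s v w = om t v w` for `v w : E2`).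
`rho_area`: `clift_deriv`, `PreservesArea` and `rho_lin` with `v = fderiv ℝ H x 1`, `w = fderiv ℝ H x I` (`v.re * w.im - v.im * w.re = det`: matrix of `fderiv ℝ H x` in the basis `1, I`,
`LinearMap.det_toLin`, `Complex.basisOneI`; see `CV_HA_det` in `Pool/Agent/H12/CV/HA.lean` for the style).
`exists_rho`: `ρ = |rho|`, i.e. `rho` or `-rho` by `rho_sign`.
-/

namespace BR

open Metric Set Filter Topology Function CV
open scoped Manifold ContDiff

variable {S : Type} [MetricSpace S] [ChartedSpace E2 S] [IsManifold (𝓡 2) ∞ S] {X : Set ℂ} {Γ : Type}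
  [Group Γ] {A : Γ → ℂ → ℂ} {p : ℂ → S}
  {om : ∀ x : S, TangentSpace (𝓡 2) x →ₗ[ℝ] TangentSpace (𝓡 2) x →ₗ[ℝ] ℝ}

theorem RHO_alg {V : Type*} [AddCommGroup V] [Module ℝ V] (B : V →ₗ[ℝ] V →ₗ[ℝ] ℝ)
    (hB : ∀ v, B v v = 0) (e1 e2 : V) (a b c d : ℝ) :
    B (a • e1 + b • e2) (c • e1 + d • e2) = (a * d - b * c) * B e1 e2 := by
  have h1 : B e2 e1 = - B e1 e2 := by
    have h := hB (e1 + e2)
    simp only [map_add, LinearMap.add_apply, hB] at h
    linarith
  simp only [map_add, map_smul, LinearMap.add_apply, LinearMap.smul_apply, smul_eq_mul, hB, h1]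
  ring

theorem RHO_dec (z : ℂ) : z = z.re • (1:ℂ) + z.im • Complex.I := by
  apply Complex.ext <;> simp

theorem RHO_clm {V : Type*} [AddCommGroup V] [Module ℝ V] [TopologicalSpace V]
    (B : V →ₗ[ℝ] V →ₗ[ℝ] ℝ) (hB : ∀ v, B v v = 0) (D : ℂ →L[ℝ] V) (v w : ℂ) :
    B (D v) (D w) = (v.re * w.im - v.im * w.re) * B (D 1) (D Complex.I) := by
  have hD : ∀ z : ℂ, D z = z.re • D 1 + z.im • D Complex.I := fun z => by
    conv_lhs => rw [RHO_dec z]
    rw [map_add, map_smul, map_smul]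
  rw [hD v, hD w]
  exact RHO_alg B hB _ _ _ _ _ _

theorem RHO_det (F : ℂ →L[ℝ] ℂ) :
    F.det = (F 1).re * (F Complex.I).im - (F 1).im * (F Complex.I).re := by
  show LinearMap.det (F : ℂ →ₗ[ℝ] ℂ) = _
  rw [← LinearMap.det_toMatrix Complex.basisOneI, Matrix.det_fin_two]
  simp only [LinearMap.toMatrix_apply, Complex.coe_basisOneI, Complex.coe_basisOneI_repr,
    Matrix.cons_val_zero, Matrix.cons_val_one, ContinuousLinearMap.coe_coe]
  ring

theorem RHO_cast (om : ∀ x : S, TangentSpace (𝓡 2) x →ₗ[ℝ] TangentSpace (𝓡 2) x →ₗ[ℝ] ℝ) {s t : S}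
    (h : s = t) (v w : E2) : om s v w = om t v w := by
  subst h
  rfl

theorem rho_lin (hom : DS.Surf.IsAreaForm om) (x : ℂ) (v w : ℂ) :
    om (p x) (mfderiv 𝓘(ℝ, ℂ) (𝓡 2) p x v) (mfderiv 𝓘(ℝ, ℂ) (𝓡 2) p x w) =
      (v.re * w.im - v.im * w.re) * rho om p x := by
  exact RHO_clm (om (p x)) (hom.alt (p x)) (mfderiv 𝓘(ℝ, ℂ) (𝓡 2) p x) v w

theorem rho_ne (hom : DS.Surf.IsAreaForm om) (hp : Smo X p) {x : ℂ} (hx : x ∈ X) :
    rho om p x ≠ 0 := by
  obtain ⟨v, w, h⟩ := hom.ne (p x)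
  obtain ⟨v', rfl⟩ := (hp.bij x hx).2 v
  obtain ⟨w', rfl⟩ := (hp.bij x hx).2 w
  intro h0
  apply h
  exact (rho_lin hom x v' w').trans (by rw [h0, mul_zero])

theorem rho_inv (D : Deck X A p) (hom : DS.Surf.IsAreaForm om) (hp : Smo X p) (c : Γ) {x : ℂ}
    (hx : x ∈ X) : rho om p (A c x) * ‖deriv (A c) x‖ ^ 2 = rho om p x := by
  have h1 := p_deriv D hp c hx 1
  have h2 := p_deriv D hp c hx Complex.I
  have h3 : p (A c x) = p x := D.fibre c hx
  have h4 : rho om p x = om (p (A c x))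
      (mfderiv 𝓘(ℝ, ℂ) (𝓡 2) p (A c x) (deriv (A c) x * 1 : ℂ))
      (mfderiv 𝓘(ℝ, ℂ) (𝓡 2) p (A c x) (deriv (A c) x * Complex.I : ℂ)) := by
    unfold rho
    exact (RHO_cast om h3.symm _ _).trans
      (congrArg₂ (fun v w : E2 => om (p (A c x)) v w) h1.symm h2.symm)
  rw [h4, rho_lin hom, ← Complex.normSq_eq_norm_sq, Complex.normSq_apply]
  simp only [mul_one, Complex.mul_re, Complex.mul_im, Complex.I_re, Complex.I_im, mul_zero,
    zero_sub, add_zero, zero_add]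
  ring

theorem rho_area (hX : IsOpen X) (hom : DS.Surf.IsAreaForm om) (hp : Smo X p) {h : S → S}
    (hh : ContMDiff (𝓡 2) (𝓡 2) 1 h) (ha : DS.Surf.PreservesArea om h) {H : ℂ → ℂ}
    (hH : CLift X p h H) {x : ℂ} (hx : x ∈ X) :
    rho om p (H x) * (fderiv ℝ H x).det = rho om p x := by
  have h1 := clift_deriv hX hp hh hH hx 1
  have h2 := clift_deriv hX hp hh hH hx Complex.I
  have h3 : p (H x) = h (p x) := hH.lift x hx
  have h4 : rho om p x = om (p (H x))
      (mfderiv 𝓘(ℝ, ℂ) (𝓡 2) p (H x) (fderiv ℝ H x 1 : ℂ))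
      (mfderiv 𝓘(ℝ, ℂ) (𝓡 2) p (H x) (fderiv ℝ H x Complex.I : ℂ)) := by
    have h5 := ha (p x) (mfderiv 𝓘(ℝ, ℂ) (𝓡 2) p x (1:ℂ)) (mfderiv 𝓘(ℝ, ℂ) (𝓡 2) p x Complex.I)
    refine Eq.trans h5.symm ((RHO_cast om h3.symm _ _).trans
      (congrArg₂ (fun v w : E2 => om (p (H x)) v w) h1.symm h2.symm))
  rw [h4, rho_lin hom, RHO_det]
  ring

end BR
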